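import Pool.Agent.H61.Fu.Num
import Pool.Agent.H39R2.FujNT

/-! The case of a third weight which is a gap of the semigroup of the first two. -/

set_option autoImplicit false

namespace Pool.Agent.H61.Fu

theorem gap_core {G : Type*} [CommGroup G] {X Y Z : G} {a b c e q : ℕ} (ha : 2 ≤ a) (hb : 2 ≤ b)
    (hc2 : 2 ≤ c) (hq1 : 1 ≤ q) (hcop : Nat.Coprime a b)
    (hrel : ∀ x y z : ℕ, x * a + y * b + z * c = e → X ^ x * Y ^ y * Z ^ z = 1)
    (hc : ∀ p r : ℕ, p * a + r * b ≠ c)
    (hE : (a - 1) * (b - 1) + 1 + (q - 1) * (c - 1) ≤ e)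
    (hne : X ^ b ≠ Y ^ a) {x y x1 y1 : ℕ} (h1 : x * a + y * b = e) (h2 : x1 * a + y1 * b + c = e)
    (hx : x1 < x) :
    ∃ R, R ≠ Z ^ q ∧ ∀ α β γ : ℕ, α * a + β * b + γ * c = q * c → γ < q →
      X ^ α * Y ^ β * Z ^ γ = R := by
  obtain ⟨δ, hδ⟩ : ∃ δ, x = x1 + δ := ⟨x - x1, by omega⟩
  have hδ1 : 1 ≤ δ := by omega
  have hy : y < y1 := by
    by_contra hcon
    push Not at hcon
    obtain ⟨η, hη⟩ : ∃ η, y = y1 + η := ⟨y - y1, by omega⟩
    apply hc δ η
    rw [hδ, hη] at h1
    have : (x1 + δ) * a + (y1 + η) * b = x1 * a + y1 * b + (δ * a + η * b) := by ring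
    omega
  obtain ⟨η, hη⟩ : ∃ η, y1 = y + η := ⟨y1 - y, by omega⟩
  have hη1 : 1 ≤ η := by omega
  have hcδ : c + η * b = δ * a := by
    rw [hδ] at h1
    rw [hη] at h2
    have e1 : (x1 + δ) * a = x1 * a + δ * a := by ring
    have e2 : (y + η) * b = y * b + η * b := by ring
    omega
  have r1 : X ^ x * Y ^ y = 1 := by
    have := hrel x y 0 (by rw [zero_mul, add_zero]; exact h1)
    simpa using this
  have r2 : X ^ x1 * Y ^ y1 * Z = 1 := by
    have := hrel x1 y1 1 (by rw [one_mul]; exact h2)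
    simpa using this
  have r3 : Z * Y ^ η = X ^ δ := by
    have h3 : X ^ x1 * Y ^ y * (Z * Y ^ η) = X ^ x1 * Y ^ y * X ^ δ := by
      have e1 : X ^ x1 * Y ^ y * (Z * Y ^ η) = X ^ x1 * Y ^ y1 * Z := by
        rw [hη, pow_add]
        simp only [mul_assoc, mul_comm, mul_left_comm]
      have e2 : X ^ x1 * Y ^ y * X ^ δ = X ^ x * Y ^ y := by
        rw [hδ, pow_add]
        simp only [mul_assoc, mul_comm, mul_left_comm]
      rw [e1, e2, r1, r2]
    exact mul_left_cancel h3
  have r3' : ∀ n : ℕ, Z ^ n * Y ^ (n * η) = X ^ (n * δ) := by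
    intro n
    rw [mul_comm n, mul_comm n, pow_mul, pow_mul, ← mul_pow, r3]
  have hxb : x < b := by
    by_contra hcon
    push Not at hcon
    obtain ⟨x', hx'⟩ : ∃ x', x = x' + b := ⟨x - b, by omega⟩
    have h3 := hrel x' (y + a) 0 (by
      rw [← h1, hx']; ring)
    rw [pow_zero, mul_one] at h3
    apply hne
    have h4 : X ^ x' * Y ^ y * X ^ b = X ^ x' * Y ^ y * Y ^ a := by
      have e1 : X ^ x' * Y ^ y * X ^ b = X ^ x * Y ^ y := by
        rw [hx', pow_add]
        simp only [mul_assoc, mul_comm]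
      have e2 : X ^ x' * Y ^ y * Y ^ a = X ^ x' * Y ^ (y + a) := by
        rw [pow_add, mul_assoc]
      rw [e1, e2, r1, h3]
    exact mul_left_cancel h4
  set r := (x + b) / δ with hr
  have hr1 : r * δ ≤ x + b := Nat.div_mul_le_self _ _
  have hr2 : x + b < (r + 1) * δ := by
    have h3 := Nat.div_add_mod (x + b) δ
    have h4 := Nat.mod_lt (x + b) (show δ > 0 by omega)
    rw [← hr] at h3
    have h5 : (r + 1) * δ = δ * r + δ := by ring
    omega
  have hyr : y + r * η < a := by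
    by_contra hcon
    push Not at hcon
    obtain ⟨u, hu⟩ : ∃ u, y + r * η = u + a := ⟨y + r * η - a, by omega⟩
    obtain ⟨t, ht⟩ : ∃ t, x + b = t + r * δ := ⟨x + b - r * δ, by omega⟩
    have h3 : t * a + u * b + r * c = e := by
      rw [← h1]
      have h4 : r * c + r * (η * b) = r * (δ * a) := by rw [← mul_add, hcδ]
      have h5 : (y + r * η) * b = (u + a) * b := by rw [hu]
      have h6 : (x + b) * a = (t + r * δ) * a := by rw [ht]
      nlinarith
    have h4 := hrel t u r h3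
    apply hne
    have h5 : X ^ (x + b) * Y ^ y = Y ^ a := by
      have e1 : X ^ (x + b) * Y ^ y = X ^ t * Y ^ y * X ^ (r * δ) := by
        rw [ht, pow_add, mul_right_comm]
      have e2 : X ^ t * Y ^ y * (Z ^ r * Y ^ (r * η)) = X ^ t * Y ^ (y + r * η) * Z ^ r := by
        rw [pow_add]
        simp only [mul_assoc, mul_comm, mul_left_comm]
      rw [e1, ← r3' r, e2, hu, pow_add]
      calc X ^ t * (Y ^ u * Y ^ a) * Z ^ r = (X ^ t * Y ^ u * Z ^ r) * Y ^ a := by
            simp only [mul_assoc, mul_comm, mul_left_comm]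
        _ = Y ^ a := by rw [h4, one_mul]
    rw [← h5, pow_add]
    calc X ^ b = X ^ b * (X ^ x * Y ^ y) := by rw [r1, mul_one]
      _ = X ^ x * X ^ b * Y ^ y := by simp only [mul_assoc, mul_comm, mul_left_comm]
  have hqδ : q * δ < 2 * b := by
    by_contra hcon
    push Not at hcon
    have hE' : ((a : ℤ) - 1) * (b - 1) + 1 + (q - 1) * (c - 1) ≤ e := by
      obtain ⟨a', rfl⟩ : ∃ a', a = a' + 1 := ⟨a - 1, by omega⟩
      obtain ⟨b', rfl⟩ : ∃ b', b = b' + 1 := ⟨b - 1, by omega⟩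
      obtain ⟨c', rfl⟩ : ∃ c', c = c' + 1 := ⟨c - 1, by omega⟩
      obtain ⟨q', rfl⟩ : ∃ q', q = q' + 1 := ⟨q - 1, by omega⟩
      simp only [Nat.add_sub_cancel] at hE
      push_cast
      zify at hE
      linarith
    refine gap_num (a := a) (b := b) (c := c) (x := x) (y := y) (r := r) (δ := δ) (η := η)
      (q := q) (e := e) (by exact_mod_cast ha) (by exact_mod_cast hb) (by exact_mod_cast hc2)
      ?_ (by exact_mod_cast hη1) (by exact_mod_cast hδ1) ?_ ?_ (by positivity)
      (by exact_mod_cast hr1) (by exact_mod_cast hr2) ?_ ?_ hE' (by exact_mod_cast hcon)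
    · have : (x : ℤ) < b := by exact_mod_cast hxb
      linarith
    · exact_mod_cast (show δ ≤ x by omega)
    · have : ((c + η * b : ℕ) : ℤ) = (δ * a : ℕ) := by rw [hcδ]
      push_cast at this
      linarith
    · have : ((y + r * η : ℕ) : ℤ) < a := by exact_mod_cast hyr
      push_cast at this
      linarith
    · rw [← h1]; push_cast; ring
  refine ⟨Z ^ q * Y ^ a * (X ^ b)⁻¹, ?_, ?_⟩
  · intro h
    apply hne
    have h3 : Z ^ q * Y ^ a * (X ^ b)⁻¹ * X ^ b = Z ^ q * X ^ b := by rw [h]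
    rw [inv_mul_cancel_right] at h3
    exact (mul_left_cancel h3).symm
  · intro α β γ h3 hγ
    obtain ⟨n, hn⟩ : ∃ n, q = γ + n := ⟨q - γ, by omega⟩
    have hn1 : 1 ≤ n := by omega
    have h4 : α * a + (β + n * η) * b = n * δ * a := by
      rw [hn] at h3
      have h5 : n * c + n * (η * b) = n * (δ * a) := by rw [← mul_add, hcδ]
      have h6 : (γ + n) * c = γ * c + n * c := by ring
      have h7 : (β + n * η) * b = β * b + n * (η * b) := by ring
      have h8 : n * δ * a = n * (δ * a) := by ring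
      omega
    have h5 : a ∣ (β + n * η) * b :=
      (Nat.dvd_add_right (Nat.dvd_mul_left a α)).1 (by rw [h4]; exact Nat.dvd_mul_left _ _)
    obtain ⟨t, ht⟩ := hcop.dvd_of_dvd_mul_right h5
    have h6 : α + t * b = n * δ := by
      rw [ht] at h4
      have h7 : (α + t * b) * a = n * δ * a := by rw [← h4]; ring
      exact Nat.eq_of_mul_eq_mul_right (by omega) h7
    have ht1 : t = 1 := by
      have h7 : 1 ≤ t := by
        by_contra hcon
        have : t = 0 := by omega
        rw [this, mul_zero] at ht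
        have : 1 * 1 ≤ n * η := Nat.mul_le_mul hn1 hη1
        omega
      have h8 : n * δ ≤ q * δ := Nat.mul_le_mul_right _ (by omega)
      by_contra hcon
      have h9 : 2 ≤ t := by omega
      have h10 : 2 * b ≤ t * b := Nat.mul_le_mul_right _ h9
      omega
    rw [ht1, one_mul] at h6
    rw [ht1, mul_one] at ht
    rw [eq_mul_inv_iff_mul_eq]
    have e1 : X ^ α * Y ^ β * Z ^ γ * X ^ b = X ^ (α + b) * Y ^ β * Z ^ γ := by
      rw [pow_add]; simp only [mul_assoc, mul_comm, mul_left_comm]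
    rw [e1, h6, ← r3' n, hn, ← ht, pow_add, pow_add]
    simp only [mul_assoc, mul_comm, mul_left_comm]

theorem gap {G : Type*} [CommGroup G] {X Y Z : G} {a b c e q : ℕ} (ha : 2 ≤ a) (hb : 2 ≤ b)
    (hc2 : 2 ≤ c) (hq1 : 1 ≤ q) (hcop : Nat.Coprime a b)
    (hrel : ∀ x y z : ℕ, x * a + y * b + z * c = e → X ^ x * Y ^ y * Z ^ z = 1)
    (hc : ∀ p r : ℕ, p * a + r * b ≠ c)
    (hE : (a - 1) * (b - 1) + 1 + (q - 1) * (c - 1) ≤ e)
    (hce : c + (a - 1) * (b - 1) ≤ e)
    (hne : X ^ b ≠ Y ^ a) :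
    ∃ R, R ≠ Z ^ q ∧ ∀ α β γ : ℕ, α * a + β * b + γ * c = q * c → γ < q →
      X ^ α * Y ^ β * Z ^ γ = R := by
  obtain ⟨x, y, h1⟩ := Pool.Agent.H39R2.Fuj.rep hcop (t := e) (by omega)
  obtain ⟨x1, y1, h2⟩ := Pool.Agent.H39R2.Fuj.rep hcop (t := e - c) (by omega)
  have h1' : x * a + y * b = e := by rw [← h1]; ring
  have h2' : x1 * a + y1 * b + c = e := by
    have : x1 * a + y1 * b = a * x1 + b * y1 := by ring
    omega
  rcases lt_trichotomy x1 x with h | h | h
  · exact gap_core ha hb hc2 hq1 hcop hrel hc hE hne h1' h2' h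
  · exfalso
    subst h
    obtain ⟨z, hz⟩ | ⟨z, hz⟩ : (∃ z, y = y1 + z) ∨ ∃ z, y1 = y + z := by
      rcases le_total y1 y with h | h
      · exact Or.inl ⟨y - y1, by omega⟩
      · exact Or.inr ⟨y1 - y, by omega⟩
    · apply hc 0 z
      rw [hz] at h1'
      have : (y1 + z) * b = y1 * b + z * b := by ring
      omega
    · rw [hz] at h2'
      have : (y + z) * b = y * b + z * b := by ring
      omega
  · have h3 : y1 < y := by
      by_contra hcon
      push Not at hcon
      have h4 : x * a ≤ x1 * a := Nat.mul_le_mul_right _ h.le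
      have h5 : y * b ≤ y1 * b := Nat.mul_le_mul_right _ hcon
      omega
    obtain ⟨R, hR, h4⟩ := gap_core (X := Y) (Y := X) (Z := Z) (e := e) (q := q) hb ha hc2 hq1
      hcop.symm
      (fun x y z hxyz => by
        rw [mul_comm (Y ^ x)]
        exact hrel y x z (by rw [← hxyz]; ring))
      (fun p r h => hc r p (by rw [← h]; ring)) (by rw [mul_comm (b - 1)]; exact hE) hne.symm
      (x := y) (y := x) (x1 := y1) (y1 := x1) (by rw [← h1']; ring) (by rw [← h2']; ring) h3
    exact ⟨R, hR, fun α β γ h5 h6 => by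
      rw [mul_comm (X ^ α)]
      exact h4 β α γ (by rw [← h5]; ring) h6⟩

end Pool.Agent.H61.Fu
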