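import Pool.Agent.H61.Fu.Sys
import Pool.Agent.H61.Fu.Gap

/-! Algebra-valued points of weighted complete intersections with given values of all sections. -/

set_option autoImplicit false

namespace Pool.Agent.H61.Fu

open MvPolynomial Pool.Agent.H39R2.Fuj

variable {N : ℕ} {B : Type*} [CommRing B] [Algebra ℂ B]

theorem comp (g : MvPolynomial (Fin N) ℂ) (v : Fin N → ℂ) (y : Fin N → B)
    (hv : eval v g = 0) (hy : aeval y g = 0) (m0 : Fin N →₀ ℕ) (hm0 : coeff m0 g ≠ 0) (R : B)
    (h : ∀ m ∈ g.support, m ≠ m0 →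
      ∏ i, y i ^ m i = R * ∏ i, (algebraMap ℂ B (v i)) ^ m i) :
    ∏ i, y i ^ m0 i = R * ∏ i, (algebraMap ℂ B (v i)) ^ m0 i := by
  have h1 : aeval y g = ∑ m ∈ g.support, algebraMap ℂ B (coeff m g) * ∏ i, y i ^ m i := by
    rw [aeval_def, eval₂_eq']
  have h2 : algebraMap ℂ B (eval v g) = ∑ m ∈ g.support, algebraMap ℂ B (coeff m g) *
      ∏ i, (algebraMap ℂ B (v i)) ^ m i := by
    rw [eval_eq', map_sum]
    refine Finset.sum_congr rfl fun m _ => ?_
    rw [map_mul, map_prod]
    simp only [map_pow]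
  have h3 : ∑ m ∈ g.support, algebraMap ℂ B (coeff m g) *
      (∏ i, y i ^ m i - R * ∏ i, (algebraMap ℂ B (v i)) ^ m i) = 0 := by
    simp only [mul_sub]
    rw [Finset.sum_sub_distrib, ← h1, hy]
    have h4 : ∑ m ∈ g.support, algebraMap ℂ B (coeff m g) *
        (R * ∏ i, (algebraMap ℂ B (v i)) ^ m i) = R * algebraMap ℂ B (eval v g) := by
      rw [h2, Finset.mul_sum]
      exact Finset.sum_congr rfl fun m _ => by ring
    rw [h4, hv, map_zero, mul_zero, sub_zero]
  rw [Finset.sum_eq_single_of_mem m0 (mem_support_iff.2 hm0)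
    (fun m hm hne => by rw [h m hm hne, sub_self, mul_zero])] at h3
  have h4 : IsUnit (algebraMap ℂ B (coeff m0 g)) :=
    (isUnit_iff_ne_zero.2 hm0).map (algebraMap ℂ B)
  exact sub_eq_zero.1 (h4.mul_right_eq_zero.1 h3)

theorem prod_single {M : Type*} [CommMonoid M] (y : Fin N → M) (l : Fin N) (ℓ : ℕ) :
    ∏ i, y i ^ (Finsupp.single l ℓ) i = y l ^ ℓ := by
  classical
  rw [Finset.prod_eq_single l]
  · rw [Finsupp.single_eq_same]
  · intro i _ hi
    rw [Finsupp.single_eq_of_ne hi, pow_zero]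
  · intro h; exact absurd (Finset.mem_univ l) h

theorem prod2 {M : Type*} [CommMonoid M] (y : Fin N → M) {m : Fin N →₀ ℕ} {i k : Fin N}
    (hik : i ≠ k) (h : ∀ x, x ≠ i → x ≠ k → m x = 0) :
    ∏ x, y x ^ m x = y i ^ m i * y k ^ m k := by
  classical
  rw [← Finset.prod_pair hik (f := fun x => y x ^ m x)]
  refine (Finset.prod_subset (Finset.subset_univ _) fun x _ hx => ?_).symm
  rw [Finset.mem_insert, Finset.mem_singleton, not_or] at hx
  rw [h x hx.1 hx.2, pow_zero]

theorem prod3 {M : Type*} [CommMonoid M] (y : Fin N → M) {m : Fin N →₀ ℕ} {i k l : Fin N}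
    (hik : i ≠ k) (hil : i ≠ l) (hkl : k ≠ l) (h : ∀ x, x ≠ i → x ≠ k → x ≠ l → m x = 0) :
    ∏ x, y x ^ m x = y i ^ m i * y k ^ m k * y l ^ m l := by
  classical
  have h1 : ∏ x ∈ ({i, k, l} : Finset (Fin N)), y x ^ m x = y i ^ m i * y k ^ m k * y l ^ m l := by
    rw [Finset.prod_insert (by simp [hik, hil]), Finset.prod_pair hkl, mul_assoc]
  rw [← h1]
  refine (Finset.prod_subset (Finset.subset_univ _) fun x _ hx => ?_).symm
  simp only [Finset.mem_insert, Finset.mem_singleton, not_or] at hx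
  rw [h x hx.1 hx.2.1 hx.2.2, pow_zero]

theorem wt2 (a : Fin N → ℕ) {m : Fin N →₀ ℕ} {i k : Fin N}
    (hik : i ≠ k) (h : ∀ x, x ≠ i → x ≠ k → m x = 0) :
    Finsupp.weight a m = m i * a i + m k * a k := by
  classical
  rw [Pool.Agent.R920.WC.weight_eq, ← Finset.sum_pair hik (f := fun x => m x * a x)]
  refine (Finset.sum_subset (Finset.subset_univ _) fun x _ hx => ?_).symm
  rw [Finset.mem_insert, Finset.mem_singleton, not_or] at hx
  rw [h x hx.1 hx.2, zero_mul]

theorem wt3 (a : Fin N → ℕ) {m : Fin N →₀ ℕ} {i k l : Fin N}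
    (hik : i ≠ k) (hil : i ≠ l) (hkl : k ≠ l) (h : ∀ x, x ≠ i → x ≠ k → x ≠ l → m x = 0) :
    Finsupp.weight a m = m i * a i + m k * a k + m l * a l := by
  classical
  have h1 : ∑ x ∈ ({i, k, l} : Finset (Fin N)), m x * a x =
      m i * a i + m k * a k + m l * a l := by
    rw [Finset.sum_insert (by simp [hik, hil]), Finset.sum_pair hkl, add_assoc]
  rw [Pool.Agent.R920.WC.weight_eq, ← h1]
  refine (Finset.sum_subset (Finset.subset_univ _) fun x _ hx => ?_).symm
  simp only [Finset.mem_insert, Finset.mem_singleton, not_or] at hx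
  rw [h x hx.1 hx.2.1 hx.2.2, zero_mul]

/-- a monomial of the same weight as `x_l ^ ℓ`, different from it, has a smaller exponent -/
theorem lt_of_ne_single {a : Fin N → ℕ} (ha : ∀ i, 0 < a i) {m : Fin N →₀ ℕ} {l : Fin N}
    {ℓ D : ℕ} (h1 : Finsupp.weight a m = D) (h2 : ℓ * a l = D) (h3 : m ≠ Finsupp.single l ℓ) :
    m l < ℓ := by
  classical
  by_contra hcon
  push Not at hcon
  rw [Pool.Agent.R920.WC.weight_eq, ← Finset.add_sum_erase _ _ (Finset.mem_univ l)] at h1
  have h4 : ℓ * a l ≤ m l * a l := Nat.mul_le_mul_right _ hcon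
  have h5 : m l * a l = ℓ * a l := by omega
  have h6 : ∑ x ∈ Finset.univ.erase l, m x * a x = 0 := by omega
  apply h3
  ext x
  by_cases hx : x = l
  · subst hx
    rw [Finsupp.single_eq_same]
    exact Nat.eq_of_mul_eq_mul_right (ha x) h5
  · rw [Finsupp.single_eq_of_ne hx]
    have h7 := (Finset.sum_eq_zero_iff.mp h6) x (Finset.mem_erase.mpr ⟨hx, Finset.mem_univ x⟩)
    rcases Nat.mul_eq_zero.mp h7 with h8 | h8
    · exact h8
    · exact absurd h8 (ha x).ne'

variable {a : Fin N → ℕ} {d : Fin 2 → ℕ} {e : ℕ} {f : Fin 2 → MvPolynomial (Fin N) ℂ}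
  {J : Fin N → Fin 2}

/-- linear coordinates -/
theorem finish (S : Sys a d e f J) (v : Fin N → ℂ) (y : Fin N → B)
    (hfv : ∀ j, eval v (f j) = 0) (hfy : ∀ j, aeval y (f j) = 0) (T : B)
    (h : ∀ l, y l = T ^ a l * algebraMap ℂ B (v l) ∨ (1 < a l ∧ d (J l) = a l)) :
    ∀ l, y l = T ^ a l * algebraMap ℂ B (v l) := by
  have key : ∀ n, ∀ l, a l = n → y l = T ^ a l * algebraMap ℂ B (v l) := by
    intro n
    induction n using Nat.strong_induction_on with
    | _ n ih =>
      intro l hl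
      rcases h l with h1 | ⟨h1, h2⟩
      · exact h1
      · obtain ⟨ℓ, h3, h4⟩ := S.hJ l h1
        have h5 : ℓ = 1 := by
          have : ℓ * a l = 1 * a l := by rw [h3, h2, one_mul]
          exact Nat.eq_of_mul_eq_mul_right (S.ha l) this
        subst h5
        have h6 := comp (f (J l)) v y (hfv _) (hfy _) _ h4 (T ^ a l) (by
          intro m hm hne
          have hw := S.hf (J l) (mem_support_iff.1 hm)
          have hml : m l < 1 := lt_of_ne_single S.ha hw h3 hne
          have hwt := hw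
          rw [Pool.Agent.R920.WC.weight_eq, h2] at hw
          have h7 : ∀ i, m i ≠ 0 → a i < a l := by
            intro i hi
            have hle : m i * a i ≤ a l := by
              rw [← hw]
              exact Finset.single_le_sum (f := fun x => m x * a x)
                (fun x _ => Nat.zero_le _) (Finset.mem_univ i)
            have h8 : 1 * a i ≤ m i * a i := Nat.mul_le_mul_right _ (Nat.one_le_iff_ne_zero.2 hi)
            rcases Nat.lt_or_ge (a i) (a l) with h9 | h9
            · exact h9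
            · exfalso
              have h10 : a i = a l := by omega
              have h11 : i ≠ l := by
                rintro rfl
                omega
              have h12 := S.hcop i l h11
              rw [h10] at h12
              have := Nat.coprime_self (a l) |>.1 h12
              omega
          have h8 : T ^ a l = ∏ i, (T ^ a i) ^ m i := by
            rw [← hw, ← Finset.prod_pow_eq_pow_sum]
            exact Finset.prod_congr rfl fun i _ => by rw [← pow_mul, mul_comm]
          rw [h8, ← Finset.prod_mul_distrib]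
          refine Finset.prod_congr rfl fun i _ => ?_
          by_cases hi : m i = 0
          · rw [hi, pow_zero, pow_zero, pow_zero, mul_one]
          · rw [ih (a i) (hl ▸ h7 i hi) i rfl, mul_pow])
        rw [prod_single, prod_single, pow_one, pow_one] at h6
        exact h6
  exact fun l => key (a l) l rfl

/-- the values of the sections at a point `y` with values in `B` are those at `v` -/
structure Rel (a : Fin N → ℕ) (e : ℕ) (f : Fin 2 → MvPolynomial (Fin N) ℂ) (v : Fin N → ℂ)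
    (y : Fin N → B) : Prop where
  hs : ∀ s, IsWeightedHomogeneous a s e → aeval y s = algebraMap ℂ B (eval v s)
  hfv : ∀ j, eval v (f j) = 0
  hfy : ∀ j, aeval y (f j) = 0

variable {v : Fin N → ℂ} {y : Fin N → B}

theorem Rel.mono3 (H : Rel a e f v y) (i k l : Fin N) (p q r : ℕ)
    (h : p * a i + q * a k + r * a l = e) :
    y i ^ p * y k ^ q * y l ^ r = algebraMap ℂ B (v i) ^ p * algebraMap ℂ B (v k) ^ q *
      algebraMap ℂ B (v l) ^ r := by
  have h1 : IsWeightedHomogeneous a (X i ^ p * X k ^ q * X l ^ r : MvPolynomial (Fin N) ℂ) e := by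
    rw [← h]
    exact (hom_two a i k p q).mul (hom_pow a l r)
  have h2 := H.hs _ h1
  simpa using h2

theorem unitV {v : ℂ} (h : v ≠ 0) : IsUnit (algebraMap ℂ B v) :=
  (isUnit_iff_ne_zero.2 h).map (algebraMap ℂ B)

theorem exists_ratio {v : ℂ} (h : v ≠ 0) {y : B} (hy : IsUnit y) :
    ∃ X : Bˣ, y = X * algebraMap ℂ B v := by
  obtain ⟨u, hu⟩ := hy
  obtain ⟨w, hw⟩ := unitV (B := B) h
  refine ⟨u * w⁻¹, ?_⟩
  rw [← hw, Units.val_mul, mul_assoc, Units.inv_mul, mul_one, hu]

/-- relations of the ratios -/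
theorem Rel.rat3 (H : Rel a e f v y) {i k l : Fin N} (hi : v i ≠ 0) (hk : v k ≠ 0) (hl : v l ≠ 0)
    {X Y Z : Bˣ} (hX : y i = X * algebraMap ℂ B (v i)) (hY : y k = Y * algebraMap ℂ B (v k))
    (hZ : y l = Z * algebraMap ℂ B (v l)) (p q r : ℕ) (h : p * a i + q * a k + r * a l = e) :
    X ^ p * Y ^ q * Z ^ r = 1 := by
  have h1 := H.mono3 i k l p q r h
  rw [hX, hY, hZ, mul_pow, mul_pow, mul_pow] at h1
  have h2 : IsUnit (algebraMap ℂ B (v i) ^ p * algebraMap ℂ B (v k) ^ q *
      algebraMap ℂ B (v l) ^ r) :=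
    (((unitV hi).pow p).mul ((unitV hk).pow q)).mul ((unitV hl).pow r)
  have h3 : ((X : B) ^ p * (Y : B) ^ q * (Z : B) ^ r) *
      (algebraMap ℂ B (v i) ^ p * algebraMap ℂ B (v k) ^ q * algebraMap ℂ B (v l) ^ r) =
      1 * (algebraMap ℂ B (v i) ^ p * algebraMap ℂ B (v k) ^ q * algebraMap ℂ B (v l) ^ r) := by
    rw [one_mul]
    refine Eq.trans ?_ h1
    ring
  have h4 := h2.mul_right_cancel h3
  ext
  push_cast
  exact h4

theorem Rel.rat2 (H : Rel a e f v y) {i k : Fin N} (hi : v i ≠ 0) (hk : v k ≠ 0)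
    {X Y : Bˣ} (hX : y i = X * algebraMap ℂ B (v i)) (hY : y k = Y * algebraMap ℂ B (v k))
    (p q : ℕ) (h : p * a i + q * a k = e) : X ^ p * Y ^ q = 1 := by
  have h1 := H.rat3 hi hk hi hX hY hX p q 0 (by omega)
  simpa using h1

/-- a coordinate of a monomial which does not vanish at `v` is a unit -/
theorem Rel.unit (H : Rel a e f v y) {i k l : Fin N} (hi : v i ≠ 0) (hk : v k ≠ 0) (hl : v l ≠ 0)
    (p q r : ℕ) (h : p * a i + q * a k + (r + 1) * a l = e) : IsUnit (y l) := by
  have h1 := H.mono3 i k l p q (r + 1) h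
  have h2 : IsUnit (algebraMap ℂ B (v i) ^ p * algebraMap ℂ B (v k) ^ q *
      algebraMap ℂ B (v l) ^ (r + 1)) :=
    (((unitV hi).pow p).mul ((unitV hk).pow q)).mul ((unitV hl).pow (r + 1))
  rw [← h1] at h2
  have h3 := isUnit_of_mul_isUnit_right h2
  rw [pow_succ] at h3
  exact isUnit_of_mul_isUnit_right h3

/-- if `e` is large, a coordinate vanishing at `v` vanishes at `y` -/
theorem Rel.zero (S : Sys a d e f J) (H : Rel a e f v y) {i k l : Fin N} (hik : i ≠ k)
    (hyi : IsUnit (y i)) (hyk : IsUnit (y k)) (hl : v l = 0)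
    (he : a l + (a i - 1) * (a k - 1) ≤ e) : y l = 0 := by
  obtain ⟨p, q, hpq⟩ := rep (S.hcop i k hik) (t := e - a l) (by omega)
  have h1 := H.mono3 i k l p q 1 (by
    have : p * a i + q * a k = a i * p + a k * q := by ring
    omega)
  rw [hl, map_zero, pow_one, pow_one, mul_zero] at h1
  exact ((hyi.pow p).mul (hyk.pow q)).mul_right_eq_zero.1 h1

/-- a common root -/
theorem root {G : Type*} [CommGroup G] {X Y : G} {p q : ℕ} (hc : Nat.Coprime p q)
    (h : X ^ q = Y ^ p) : ∃ T : G, X = T ^ p ∧ Y = T ^ q := by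
  have h1 := Nat.gcd_eq_gcd_ab p q
  rw [hc.gcd_eq_one] at h1
  set r := Nat.gcdA p q
  set s := Nat.gcdB p q
  have hz : X ^ (q : ℤ) = Y ^ (p : ℤ) := by rw [zpow_natCast, zpow_natCast, h]
  refine ⟨X ^ r * Y ^ s, ?_, ?_⟩
  · rw [mul_pow, ← zpow_natCast, ← zpow_natCast, ← zpow_mul, ← zpow_mul, mul_comm s, zpow_mul Y,
      ← hz, ← zpow_mul, ← zpow_add]
    rw [show r * (p : ℤ) + q * s = 1 by push_cast at h1; linarith, zpow_one]
  · rw [mul_pow, ← zpow_natCast, ← zpow_natCast, ← zpow_mul, ← zpow_mul, mul_comm r, zpow_mul X,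
      hz, ← zpow_mul, ← zpow_add]
    rw [show (p : ℤ) * r + s * q = 1 by push_cast at h1; linarith, zpow_one]

/-- two coordinates determine the others -/
theorem Rel.pair (S : Sys a d e f J) (H : Rel a e f v y) {i k : Fin N} (hik : i ≠ k)
    (hi : v i ≠ 0) (hk : v k ≠ 0) {X Y : Bˣ} (hX : y i = X * algebraMap ℂ B (v i))
    (hY : y k = Y * algebraMap ℂ B (v k)) (hXY : X ^ a k = Y ^ a i)
    (he : (a i - 1) * (a k - 1) ≤ e)
    (hoth : ∀ l, l ≠ i → l ≠ k → a l + (a i - 1) * (a k - 1) ≤ e ∨ (1 < a l ∧ d (J l) = a l)) :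
    ∃ T : Bˣ, ∀ l, y l = (T : B) ^ a l * algebraMap ℂ B (v l) := by
  obtain ⟨T, hTX, hTY⟩ := root (S.hcop i k hik) hXY
  have hTe : T ^ e = 1 := by
    obtain ⟨p, q, hpq⟩ := rep (S.hcop i k hik) (t := e) he
    have h1 := H.rat2 hi hk hX hY p q (by rw [← hpq]; ring)
    rw [hTX, hTY, ← pow_mul, ← pow_mul, ← pow_add, hpq] at h1
    exact h1
  refine ⟨T, finish S v y H.hfv H.hfy T ?_⟩
  intro l
  by_cases hli : l = i
  · left; rw [hli, hX, hTX]; push_cast; rfl
  by_cases hlk : l = k
  · left; rw [hlk, hY, hTY]; push_cast; rfl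
  rcases hoth l hli hlk with h1 | h1
  · left
    obtain ⟨p, q, hpq⟩ := rep (S.hcop i k hik) (t := e - a l) (by omega)
    have h2 := H.mono3 i k l p q 1 (by
      have : p * a i + q * a k = a i * p + a k * q := by ring
      omega)
    rw [hX, hY, mul_pow, mul_pow, hTX, hTY, pow_one, pow_one] at h2
    have h3 : IsUnit (algebraMap ℂ B (v i) ^ p * algebraMap ℂ B (v k) ^ q) :=
      ((unitV hi).pow p).mul ((unitV hk).pow q)
    have h4 : (algebraMap ℂ B (v i) ^ p * algebraMap ℂ B (v k) ^ q) *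
        ((T : B) ^ (e - a l) * y l) =
        (algebraMap ℂ B (v i) ^ p * algebraMap ℂ B (v k) ^ q) * algebraMap ℂ B (v l) := by
      rw [← h2, ← hpq, pow_add, pow_mul, pow_mul]
      push_cast
      ring
    have h5 := h3.mul_left_cancel h4
    rw [← h5, ← mul_assoc, ← pow_add, Nat.add_sub_cancel' (by omega)]
    have h6 : (T : B) ^ e = 1 := by
      have := congrArg (Units.val) hTe
      push_cast at this
      exact this
    rw [h6, one_mul]
  · right; exact h1

/-- `e` is large -/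
theorem Rel.roomy (S : Sys a d e f J) (H : Rel a e f v y) {i k : Fin N} (hik : i ≠ k)
    (hi : v i ≠ 0) (hk : v k ≠ 0)
    (he : a i * a k + (a i - 1) * (a k - 1) ≤ e)
    (hoth : ∀ l, l ≠ i → l ≠ k → a l + (a i - 1) * (a k - 1) ≤ e ∨ (1 < a l ∧ d (J l) = a l)) :
    ∃ T : Bˣ, ∀ l, y l = (T : B) ^ a l * algebraMap ℂ B (v l) := by
  obtain ⟨p, q, hpq⟩ := rep (S.hcop i k hik) (t := e - a i * a k) (by omega)
  have hai := S.ha i
  have hak := S.ha k
  have hr1 : (p + a k) * a i + q * a k = e := by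
    have h1 : (p + a k) * a i + q * a k = a i * p + a k * q + a i * a k := by ring
    omega
  have hr2 : p * a i + (q + a i) * a k = e := by
    have h1 : p * a i + (q + a i) * a k = a i * p + a k * q + a i * a k := by ring
    omega
  have hyi : IsUnit (y i) := by
    refine H.unit (i := k) (k := k) hk hk hi q 0 (p + a k - 1) ?_
    rw [show p + a k - 1 + 1 = p + a k by omega]
    omega
  have hyk : IsUnit (y k) := by
    refine H.unit (i := i) (k := i) hi hi hk p 0 (q + a i - 1) ?_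
    rw [show q + a i - 1 + 1 = q + a i by omega]
    omega
  obtain ⟨X, hX⟩ := exists_ratio hi hyi
  obtain ⟨Y, hY⟩ := exists_ratio hk hyk
  have h1 := H.rat2 hi hk hX hY _ _ hr1
  have h2 := H.rat2 hi hk hX hY _ _ hr2
  refine H.pair S hik hi hk hX hY ?_ (by omega) hoth
  rw [← h2, pow_add, pow_add] at h1
  have h3 : X ^ p * Y ^ q * X ^ a k = X ^ p * Y ^ q * Y ^ a i := by
    rw [mul_right_comm, h1, mul_assoc]
  exact mul_left_cancel h3

end Pool.Agent.H61.Fu
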