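import Pool.Agent.H61.Fu.Main

/-! Points and tangent vectors. -/

set_option autoImplicit false

namespace Pool.Agent.H61.Fu

open MvPolynomial Pool.Agent.H39R2.Fuj

variable {N : ℕ} {a : Fin N → ℕ} {d : Fin 2 → ℕ} {e : ℕ}
  {f : Fin 2 → MvPolynomial (Fin N) ℂ} {J : Fin N → Fin 2}

theorem Sys.epos (S : Sys a d e f J) : 1 ≤ e := by
  have := S.X0 (j := 0) (j' := 1) (by decide)
  omega

/-- the sections are proportional -/
theorem prop_sections {v : Fin N → ℂ} (L : MvPolynomial (Fin N) ℂ → ℂ)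
    (hL : ∀ s t : MvPolynomial (Fin N) ℂ, L (s - t) = L s - L t)
    (hL' : ∀ (c : ℂ) (s : MvPolynomial (Fin N) ℂ), eval v s = 0 ∨ True → L (C c * s) = c * L s)
    (hb : ∃ s : MvPolynomial (Fin N) ℂ, IsWeightedHomogeneous a s e ∧ eval v s ≠ 0)
    (hsec : ∀ s, IsWeightedHomogeneous a s e → eval v s = 0 → L s = 0) :
    ∃ c : ℂ, ∀ s, IsWeightedHomogeneous a s e → L s = c * eval v s := by
  obtain ⟨s0, h0, h1⟩ := hb
  refine ⟨L s0 / eval v s0, fun s hs => ?_⟩
  have h2 : IsWeightedHomogeneous a (s - C (eval v s / eval v s0) * s0) e := by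
    have h3 : IsWeightedHomogeneous a (C (eval v s / eval v s0) * s0) e := by
      have := (isWeightedHomogeneous_C a (eval v s / eval v s0)).mul h0
      rwa [zero_add] at this
    exact (weightedHomogeneousSubmodule ℂ a e).sub_mem hs h3
  have h3 := hsec _ h2 (by
    rw [map_sub, map_mul, eval_C, div_mul_cancel₀ _ h1, sub_self])
  rw [hL, hL' _ _ (Or.inr trivial), sub_eq_zero] at h3
  rw [h3]
  field_simp

theorem points (S : Sys a d e f J)
    (hb : ∀ v : Fin N → ℂ, v ≠ 0 → (∀ j, eval v (f j) = 0) →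
      ∃ s : MvPolynomial (Fin N) ℂ, IsWeightedHomogeneous a s e ∧ eval v s ≠ 0)
    (v w : Fin N → ℂ) (hv : v ≠ 0) (hw : w ≠ 0) (hfv : ∀ j, eval v (f j) = 0)
    (hfw : ∀ j, eval w (f j) = 0)
    (hsec : ∀ s : MvPolynomial (Fin N) ℂ, IsWeightedHomogeneous a s e → eval v s = 0 →
      eval w s = 0) : ∃ t : ℂ, t ≠ 0 ∧ ∀ i, w i = t ^ a i * v i := by
  obtain ⟨c, hc⟩ := prop_sections (a := a) (e := e) (v := v) (fun s => eval w s)
    (fun s t => by simp) (fun c s _ => by simp) (hb v hv hfv) hsec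
  have hc0 : c ≠ 0 := by
    rintro rfl
    obtain ⟨s, h1, h2⟩ := hb w hw hfw
    exact h2 (by rw [hc s h1, zero_mul])
  obtain ⟨μ, hμ⟩ := IsAlgClosed.exists_pow_nat_eq c (show 0 < e from S.epos)
  have hμ0 : μ ≠ 0 := by
    rintro rfl
    rw [zero_pow (by have := S.epos; omega)] at hμ
    exact hc0 hμ.symm
  set w' : Fin N → ℂ := fun i => μ⁻¹ ^ a i * w i with hw'
  have hww : ∀ i, w i = μ ^ a i * w' i := by
    intro i
    rw [hw']
    simp only
    rw [← mul_assoc, ← mul_pow, mul_inv_cancel₀ hμ0, one_pow, one_mul]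
  have hs : ∀ s, IsWeightedHomogeneous a s e → eval w' s = eval v s := by
    intro s hs
    rw [hw', eval_scale a w μ⁻¹ hs, hc s hs, ← hμ, ← mul_assoc, ← mul_pow, inv_mul_cancel₀ hμ0,
      one_pow, one_mul]
  have hfw' : ∀ j, eval w' (f j) = 0 := by
    intro j
    rw [hw', eval_scale a w μ⁻¹ (S.hf j), hfw, mul_zero]
  have hw'0 : w' ≠ 0 := by
    intro h
    apply hw
    funext i
    rw [hww, h]
    simp
  have H1 : Rel (B := ℂ) a e f v w' := ⟨fun s h => by
    rw [← hs s h]; simp [aeval_eq_eval], hfv, fun j => by rw [aeval_eq_eval]; exact hfw' j⟩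
  have H2 : Rel (B := ℂ) a e f w' v := ⟨fun s h => by
    rw [hs s h]; simp [aeval_eq_eval], hfw', fun j => by rw [aeval_eq_eval]; exact hfv j⟩
  rcases H1.main S hv with ⟨T, hT⟩ | ⟨i, k, hik, hi, hk, hai, hak, hJ, hD, hT, hn⟩
  · refine ⟨μ * T, mul_ne_zero hμ0 T.ne_zero, fun i => ?_⟩
    rw [hww, hT, mul_pow, mul_assoc]
    rfl
  rcases H2.main S hw'0 with ⟨T, hT'⟩ | ⟨l, m, hlm, hl, hm, hal, ham, hJ', hD', hT', hn'⟩
  · refine ⟨μ * (T : ℂ)⁻¹, mul_ne_zero hμ0 (inv_ne_zero T.ne_zero), fun i => ?_⟩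
    have h1 : v i = (T : ℂ) ^ a i * w' i := hT' i
    rw [hww, h1, mul_pow, mul_assoc, ← mul_assoc ((T : ℂ)⁻¹ ^ a i), ← mul_pow,
      inv_mul_cancel₀ T.ne_zero, one_pow, one_mul]
  exfalso
  rw [isUnit_iff_ne_zero, isUnit_iff_ne_zero] at hn hn'
  by_cases hJJ : J l = J i
  · have h1 := hT l hal hJJ
    have h2 := hT m ham (hJ'.symm.trans hJJ)
    apply hn
    rcases h1 with h1 | h1 <;> rcases h2 with h2 | h2
    · exact absurd (h1.trans h2.symm) hlm
    · subst h1; subst h2; exact ⟨hl, hm⟩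
    · subst h1; subst h2; exact ⟨hm, hl⟩
    · exact absurd (h1.trans h2.symm) hlm
  have hX := (S.X3 hik hai hak hJ).1
  have hX' := (S.X3 hlm hal ham hJ').1
  have hX0 := S.X0 (Ne.symm hJJ)
  have key : ∀ x, 1 < a x → v x ≠ 0 → x ≠ i → x ≠ k → d (J x) ≠ a x → False := by
    intro x hax hvx hxi hxk hdx
    have h1 := S.others hik hai hak hJ x hxi hxk (fun h => hdx h.2)
    obtain ⟨p, q, hpq⟩ := rep (S.hcop i k hik) (t := e) (by omega)
    obtain ⟨p', q', hpq'⟩ := rep (S.hcop i k hik) (t := e - a x) (by omega)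
    have h2 := H1.mono3 i k i p q 0 (by
      have : p * a i + q * a k = a i * p + a k * q := by ring
      omega)
    have h3 := H1.mono3 i k x p' q' 1 (by
      have : p' * a i + q' * a k = a i * p' + a k * q' := by ring
      omega)
    have h4 : w' i ^ p * w' k ^ q * w' i ^ 0 ≠ 0 := by
      rw [h2]
      exact mul_ne_zero (mul_ne_zero (pow_ne_zero _ hi) (pow_ne_zero _ hk)) (pow_ne_zero _ hi)
    have h5 : w' i ^ p' * w' k ^ q' * w' x ^ 1 ≠ 0 := by
      rw [h3]
      exact mul_ne_zero (mul_ne_zero (pow_ne_zero _ hi) (pow_ne_zero _ hk)) (pow_ne_zero _ hvx)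
    have h6 := left_ne_zero_of_mul h4
    have h7 := left_ne_zero_of_mul h5
    have h8 : w' i = 0 ∨ w' k = 0 := by
      by_contra hcon
      push Not at hcon
      exact hn hcon
    rcases h8 with h8 | h8
    · have hp : p = 0 := by
        by_contra h
        rw [h8, zero_pow h, zero_mul] at h6
        exact h6 rfl
      have hp' : p' = 0 := by
        by_contra h
        rw [h8, zero_pow h, zero_mul] at h7
        exact h7 rfl
      rw [hp, mul_zero, zero_add] at hpq
      rw [hp', mul_zero, zero_add] at hpq'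
      have h9 : a k ∣ a x := by
        have h10 : a k ∣ a x + a k * q' := by
          rw [hpq', Nat.add_sub_cancel' (by omega), ← hpq]
          exact Nat.dvd_mul_right _ _
        exact (Nat.dvd_add_left (Nat.dvd_mul_right _ _)).1 h10
      have := (S.hcop k x hxk.symm).eq_one_of_dvd h9
      omega
    · have hp : q = 0 := by
        by_contra h
        rw [h8, zero_pow h, mul_zero] at h6
        exact h6 rfl
      have hp' : q' = 0 := by
        by_contra h
        rw [h8, zero_pow h, mul_zero] at h7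
        exact h7 rfl
      rw [hp, mul_zero, add_zero] at hpq
      rw [hp', mul_zero, add_zero] at hpq'
      have h9 : a i ∣ a x := by
        have h10 : a i ∣ a x + a i * p' := by
          rw [hpq', Nat.add_sub_cancel' (by omega), ← hpq]
          exact Nat.dvd_mul_right _ _
        exact (Nat.dvd_add_left (Nat.dvd_mul_right _ _)).1 h10
      have := (S.hcop i x hxi.symm).eq_one_of_dvd h9
      omega
  have hJm : J m ≠ J i := fun h => hJJ (hJ'.trans h)
  obtain ⟨p, q, hpq⟩ := rep (S.hcop l m hlm) (t := e) (by omega)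
  have h2 := H2.mono3 l m l p q 0 (by
    have : p * a l + q * a m = a l * p + a m * q := by ring
    omega)
  have h4 : v l ^ p * v m ^ q * v l ^ 0 ≠ 0 := by
    rw [h2]
    exact mul_ne_zero (mul_ne_zero (pow_ne_zero _ hl) (pow_ne_zero _ hm)) (pow_ne_zero _ hl)
  have h6 := left_ne_zero_of_mul h4
  have hvl : v l = 0 := by
    by_contra h
    refine key l hal h (fun h => hJJ (by rw [h])) (fun h => hJJ (by rw [h, hJ])) ?_
    rw [hD']
    intro h
    nlinarith
  have hvm : v m = 0 := by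
    by_contra h
    refine key m ham h (fun h => hJm (by rw [h])) (fun h => hJm (by rw [h, hJ])) ?_
    rw [← hJ', hD']
    intro h
    nlinarith
  have hp : p = 0 := by
    by_contra h
    rw [hvl, zero_pow h, zero_mul] at h6
    exact h6 rfl
  have hq : q = 0 := by
    by_contra h
    rw [hvm, zero_pow h, mul_zero] at h6
    exact h6 rfl
  rw [hp, hq, mul_zero, mul_zero] at hpq
  have := S.epos
  omega

theorem aeval_dual (v u : Fin N → ℂ) (s : MvPolynomial (Fin N) ℂ) :
    aeval (fun i => (TrivSqZeroExt.inl (v i) + TrivSqZeroExt.inr (u i) : TrivSqZeroExt ℂ ℂ)) s =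
      TrivSqZeroExt.inl (eval v s) + TrivSqZeroExt.inr (dd v u s) := by
  induction s using MvPolynomial.induction_on with
  | C c =>
    rw [aeval_C, eval_C, dd_C, TrivSqZeroExt.inr_zero, add_zero]
    rfl
  | add p q hp hq =>
    rw [map_add, hp, hq, map_add, dd_add]
    ext <;> simp
  | mul_X p i hp =>
    rw [map_mul, hp, aeval_X, map_mul, eval_X, dd_mul, dd_X]
    ext
    · simp
    · simp
      ring

theorem tangents (S : Sys a d e f J)
    (hb : ∀ v : Fin N → ℂ, v ≠ 0 → (∀ j, eval v (f j) = 0) →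
      ∃ s : MvPolynomial (Fin N) ℂ, IsWeightedHomogeneous a s e ∧ eval v s ≠ 0)
    (v u : Fin N → ℂ) (hv : v ≠ 0) (hfv : ∀ j, eval v (f j) = 0)
    (hfu : ∀ j, dd v u (f j) = 0)
    (hsec : ∀ s : MvPolynomial (Fin N) ℂ, IsWeightedHomogeneous a s e → eval v s = 0 →
      dd v u s = 0) : ∃ τ : ℂ, ∀ i, u i = τ * (a i * v i) := by
  obtain ⟨c, hc⟩ := prop_sections (a := a) (e := e) (v := v) (fun s => dd v u s)
    (fun s t => dd_sub v u s t) (fun c s _ => dd_smul v u c s) (hb v hv hfv) hsec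
  have he : (e : ℂ) ≠ 0 := by
    have := S.epos
    exact_mod_cast (by omega : e ≠ 0)
  set τ : ℂ := c / e with hτ
  set u' : Fin N → ℂ := fun i => u i - τ * (a i * v i) with hu'
  have hdd : ∀ s, dd v u' s = dd v u s - τ * dd v (fun i => a i * v i) s := by
    intro s
    rw [hu', dd_sub_dir v u (fun i => τ * (a i * v i)) s, dd_smul_dir]
  set y : Fin N → TrivSqZeroExt ℂ ℂ :=
    fun i => TrivSqZeroExt.inl (v i) + TrivSqZeroExt.inr (u' i) with hy
  have H : Rel a e f v y := by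
    refine ⟨fun s hs => ?_, hfv, fun j => ?_⟩
    · rw [hy, aeval_dual, hdd, dd_euler a v hs, hc s hs, hτ]
      have : c * eval v s - c / e * (e * eval v s) = 0 := by field_simp; ring
      rw [this, TrivSqZeroExt.inr_zero, add_zero]
      rfl
    · rw [hy, aeval_dual, hdd, dd_euler a v (S.hf j), hfv, hfu, mul_zero, mul_zero, sub_zero,
        TrivSqZeroExt.inl_zero, TrivSqZeroExt.inr_zero, add_zero]
  have hunit : ∀ i, v i ≠ 0 → IsUnit (y i) := by
    intro i hi
    rw [hy, TrivSqZeroExt.isUnit_iff_isUnit_fst]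
    simpa using hi
  rcases H.main S hv with ⟨T, hT⟩ | ⟨i, k, -, hi, hk, -, -, -, -, -, hn⟩
  swap
  · exact absurd ⟨hunit i hi, hunit k hk⟩ hn
  have hT0 : (T : TrivSqZeroExt ℂ ℂ).fst ≠ 0 := by
    have := (TrivSqZeroExt.isUnit_iff_isUnit_fst.1 T.isUnit)
    exact this.ne_zero
  set t0 := (T : TrivSqZeroExt ℂ ℂ).fst
  set t1 := (T : TrivSqZeroExt ℂ ℂ).snd
  refine ⟨τ + t1 / t0, fun i => ?_⟩
  have h1 := congrArg TrivSqZeroExt.fst (hT i)
  have h2 := congrArg TrivSqZeroExt.snd (hT i)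
  have hal : algebraMap ℂ (TrivSqZeroExt ℂ ℂ) (v i) = TrivSqZeroExt.inl (v i) := rfl
  rw [hal] at h1 h2
  simp only [hy, TrivSqZeroExt.fst_add, TrivSqZeroExt.fst_inl, TrivSqZeroExt.fst_inr, add_zero,
    TrivSqZeroExt.fst_mul, TrivSqZeroExt.fst_pow] at h1
  simp only [hy, TrivSqZeroExt.snd_add, TrivSqZeroExt.snd_inl, TrivSqZeroExt.snd_inr, zero_add,
    TrivSqZeroExt.snd_mul, TrivSqZeroExt.snd_pow, TrivSqZeroExt.fst_inl,
    MulOpposite.smul_eq_mul_unop, MulOpposite.unop_op, smul_eq_mul, nsmul_eq_mul] at h2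
  have h3 : u' i = t1 / t0 * (a i * v i) := by
    rw [h2]
    rcases Nat.eq_zero_or_pos (a i) with h | h
    · have := S.ha i; omega
    obtain ⟨b, hb⟩ : ∃ b, a i = b + 1 := ⟨a i - 1, by omega⟩
    change v i = t0 ^ a i * v i at h1
    rw [hb] at h1 ⊢
    rw [mul_zero, zero_add, Nat.pred_succ]
    change ((b + 1 : ℕ) : ℂ) * (t0 ^ b * t1) * v i = _
    have h4 : t1 / t0 * (((b + 1 : ℕ) : ℂ) * v i) =
        t1 / t0 * (((b + 1 : ℕ) : ℂ) * (t0 ^ (b + 1) * v i)) := by rw [← h1]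
    rw [h4]
    field_simp
    ring
  rw [hu'] at h3
  simp only at h3
  rw [add_mul, ← h3]
  ring

/-- the assignment of a degree to each weight -/
theorem exists_sys {a : Fin N → ℕ} (ha : ∀ i, 0 < a i)
    (hcop : ∀ i k, i ≠ k → Nat.Coprime (a i) (a k)) {d : Fin 2 → ℕ} (hd : ∀ j, 0 < d j)
    {f : Fin 2 → MvPolynomial (Fin N) ℂ} (hf : ∀ j, IsWeightedHomogeneous a (f j) (d j))
    (hX : ∀ i, 1 < a i → ∃ j, eval (Pi.single i 1 : Fin N → ℂ) (f j) ≠ 0) {e : ℕ}
    (hE : d 0 + d 1 ≤ e + 1 + ∑ i, (a i - 1)) : ∃ J, Sys a d e f J := by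
  have hpure : ∀ i, ∃ j, 1 < a i → ∃ l : ℕ, l * a i = d j ∧
      coeff (Finsupp.single i l) (f j) ≠ 0 := by
    intro i
    by_cases hi : 1 < a i
    · obtain ⟨j, hj⟩ := hX i hi
      obtain ⟨m, hm, hm0⟩ := Pool.Agent.R920.WC.exists_monomial (f j) _ hj
      have h2 : m = Finsupp.single i (m i) := by
        ext k
        by_cases hk : k = i
        · subst hk
          simp
        · rw [hm0 k (Pi.single_eq_of_ne hk _), Finsupp.single_eq_of_ne hk]
      refine ⟨j, fun _ => ⟨m i, ?_, h2 ▸ mem_support_iff.1 hm⟩⟩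
      have h3 := hf j (mem_support_iff.1 hm)
      rw [Pool.Agent.R920.WC.weight_eq, Finset.sum_eq_single_of_mem i (Finset.mem_univ _)] at h3
      · exact h3
      · intro k _ hk
        rw [hm0 k (Pi.single_eq_of_ne hk _), zero_mul]
    · exact ⟨0, fun h => absurd h hi⟩
  choose J hJ using hpure
  exact ⟨J, ha, hcop, hd, hf, hJ, hE⟩

end Pool.Agent.H61.Fu
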