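import Pool.Agent.H61.Fu.Alg

/-! The main theorem: the values of the sections determine the point. -/

set_option autoImplicit false

namespace Pool.Agent.H61.Fu

open MvPolynomial Pool.Agent.H39R2.Fuj

variable {N : ℕ} {B : Type*} [CommRing B] [Algebra ℂ B]
  {a : Fin N → ℕ} {d : Fin 2 → ℕ} {e : ℕ} {f : Fin 2 → MvPolynomial (Fin N) ℂ}
  {J : Fin N → Fin 2} {v : Fin N → ℂ} {y : Fin N → B}

theorem two_val {x j j' : Fin 2} (h : j ≠ j') : x = j ∨ x = j' := by
  revert x j j'
  decide

theorem exists_ne' (j : Fin 2) : ∃ j' : Fin 2, j ≠ j' := by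
  revert j
  decide

/-- a degree with two monomials in two variables -/
theorem Rel.bin (S : Sys a d e f J) (H : Rel a e f v y) {i k : Fin N} (hik : i ≠ k)
    (hi : v i ≠ 0) (hai : 1 < a i) (hak : 1 < a k) {X Y : Bˣ}
    (hX : y i = X * algebraMap ℂ B (v i)) (hY : y k = Y * algebraMap ℂ B (v k))
    (hD : d (J i) = a i * a k) {l : Fin N} {p q : ℕ} (hp : 1 ≤ p) (hq : 1 ≤ q)
    (hoth : ∀ m, m ≠ i → m ≠ k → (v m = 0 ∧ y m = 0) ∨ (m = l ∧ a l = p * a i + q * a k)) :
    X ^ a k = Y ^ a i := by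
  obtain ⟨ℓ, h1, h2⟩ := S.hJ i hai
  have h3 : ℓ = a k := by
    have : ℓ * a i = a k * a i := by rw [h1, hD, mul_comm]
    exact Nat.eq_of_mul_eq_mul_right (S.ha i) this
  subst h3
  have h4 := comp (f (J i)) v y (H.hfv _) (H.hfy _) _ h2 ((Y : B) ^ a i) (by
    intro m hm hne
    have hw := S.hf (J i) (mem_support_iff.1 hm)
    have hlt := lt_of_ne_single S.ha hw h1 hne
    by_cases hz : ∃ x, m x ≠ 0 ∧ v x = 0 ∧ y x = 0
    · obtain ⟨x, hx1, hx2, hx3⟩ := hz
      rw [Finset.prod_eq_zero (Finset.mem_univ x) (by rw [hx3, zero_pow hx1]),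
        Finset.prod_eq_zero (Finset.mem_univ x) (by rw [hx2, map_zero, zero_pow hx1]), mul_zero]
    push Not at hz
    have hm0 : ∀ x, x ≠ i → x ≠ k → x ≠ l → m x = 0 := by
      intro x h5 h6 h7
      by_contra h8
      rcases hoth x h5 h6 with h9 | h9
      · exact hz x h8 h9.1 h9.2
      · exact h7 h9.1
    have hm1 : ∀ x, x ≠ i → x ≠ k → m x = 0 := by
      intro x h5 h6
      by_contra h8
      rcases hoth x h5 h6 with h9 | h9
      · exact hz x h8 h9.1 h9.2
      · obtain ⟨h9, h10⟩ := h9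
        subst h9
        have h11 := wt3 a hik (Ne.symm h5) (Ne.symm h6) hm0
        rw [hw, hD, h10] at h11
        have h12 : 1 * 1 ≤ m x * p := Nat.mul_le_mul (Nat.one_le_iff_ne_zero.2 h8) hp
        have h13 : 1 * 1 ≤ m x * q := Nat.mul_le_mul (Nat.one_le_iff_ne_zero.2 h8) hq
        refine ne_pos_comb hai hak (S.hcop i k hik) (x := m i + m x * p) (y := m k + m x * q)
          (by omega) (by omega) ?_
        rw [h11]; ring
    have h5 := wt2 a hik hm1
    rw [hw, hD] at h5
    have h6 : a k ∣ m i * a i :=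
      (Nat.dvd_add_left (Nat.dvd_mul_left _ _)).1 (by rw [← h5]; exact Nat.dvd_mul_left _ _)
    have h7 : a k ∣ m i := (S.hcop i k hik).symm.dvd_of_dvd_mul_right h6
    have h8 : m i = 0 := Nat.eq_zero_of_dvd_of_lt h7 hlt
    have h9 : m k = a i := by
      rw [h8, zero_mul, zero_add] at h5
      exact (Nat.eq_of_mul_eq_mul_right (S.ha k) h5).symm
    rw [prod2 y hik hm1, prod2 (fun x => algebraMap ℂ B (v x)) hik hm1, h8, h9, pow_zero,
      one_mul, hY, mul_pow, pow_zero, one_mul])
  rw [prod_single, prod_single, hX, mul_pow] at h4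
  have h5 := ((unitV hi).pow (a k)).mul_right_cancel h4
  ext
  push_cast
  exact h5

/-- the gap case -/
theorem Rel.gap' (S : Sys a d e f J) (H : Rel a e f v y) {i k l : Fin N} (hik : i ≠ k)
    (hil : i ≠ l) (hkl : k ≠ l) (hi : v i ≠ 0) (hk : v k ≠ 0) (hl : v l ≠ 0) (hai : 1 < a i)
    (hak : 1 < a k) (hal : 1 < a l) {X Y Z : Bˣ}
    (hX : y i = X * algebraMap ℂ B (v i)) (hY : y k = Y * algebraMap ℂ B (v k))
    (hZ : y l = Z * algebraMap ℂ B (v l)) (hc : ∀ p r : ℕ, p * a i + r * a k ≠ a l)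
    (hXX : (a i - 1) * (a k - 1) ≤ XX a d J (J i)) (hJl : J i ≠ J l)
    (hce : a l + (a i - 1) * (a k - 1) ≤ e)
    (hoth : ∀ m, m ≠ i → m ≠ k → m ≠ l → v m = 0 ∧ y m = 0) :
    X ^ a k = Y ^ a i := by
  by_contra hne
  obtain ⟨q, h1, h2⟩ := S.hJ l hal
  have hq1 : 1 ≤ q := by
    by_contra hcon
    have : q = 0 := by omega
    rw [this, zero_mul] at h1
    have := S.hd (J l)
    omega
  have h3 := S.X1 hal h1
  have h4 := S.X0 hJl
  obtain ⟨R, hR, h5⟩ := gap (X := X) (Y := Y) (Z := Z) (q := q) (e := e) (c := a l) hai hak hal hq1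
    (S.hcop i k hik) (fun x y z h => H.rat3 hi hk hl hX hY hZ x y z h) hc (by omega) hce hne
  have h6 := comp (f (J l)) v y (H.hfv _) (H.hfy _) _ h2 ((R : Bˣ) : B) (by
    intro m hm hne'
    have hw := S.hf (J l) (mem_support_iff.1 hm)
    have hlt := lt_of_ne_single S.ha hw h1 hne'
    by_cases hz : ∃ x, m x ≠ 0 ∧ v x = 0 ∧ y x = 0
    · obtain ⟨x, hx1, hx2, hx3⟩ := hz
      rw [Finset.prod_eq_zero (Finset.mem_univ x) (by rw [hx3, zero_pow hx1]),
        Finset.prod_eq_zero (Finset.mem_univ x) (by rw [hx2, map_zero, zero_pow hx1]), mul_zero]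
    push Not at hz
    have hm0 : ∀ x, x ≠ i → x ≠ k → x ≠ l → m x = 0 := by
      intro x h5 h6 h7
      by_contra h8
      obtain ⟨h9, h10⟩ := hoth x h5 h6 h7
      exact hz x h8 h9 h10
    have h7 := wt3 a hik hil hkl hm0
    rw [hw, ← h1] at h7
    have h8 := h5 (m i) (m k) (m l) h7.symm hlt
    rw [prod3 y hik hil hkl hm0, prod3 (fun x => algebraMap ℂ B (v x)) hik hil hkl hm0, hX, hY,
      hZ, mul_pow, mul_pow, mul_pow, ← h8]
    push_cast
    ring)
  rw [prod_single, prod_single, hZ, mul_pow] at h6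
  have h7 := ((unitV hl).pow q).mul_right_cancel h6
  exact hR (by ext; push_cast; exact h7.symm)

/-- a nonzero coordinate of weight one -/
theorem Rel.one (S : Sys a d e f J) (H : Rel a e f v y) {i : Fin N} (hi : v i ≠ 0)
    (hai : a i = 1) : ∃ T : Bˣ, ∀ l, y l = (T : B) ^ a l * algebraMap ℂ B (v l) := by
  have he : 1 ≤ e := by
    have := S.X0 (j := 0) (j' := 1) (by decide)
    omega
  have hyi : IsUnit (y i) := H.unit hi hi hi 0 0 (e - 1) (by rw [hai]; omega)
  obtain ⟨X, hX⟩ := exists_ratio hi hyi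
  have hXe : (X : B) ^ e = 1 := by
    have h1 := H.rat2 hi hi hX hX e 0 (by rw [hai]; omega)
    rw [pow_zero, mul_one] at h1
    have := congrArg (Units.val) h1
    push_cast at this
    exact this
  refine ⟨X, finish S v y H.hfv H.hfy X ?_⟩
  intro l
  by_cases hl : a l ≤ e
  · left
    have h2 := H.mono3 i i l (e - a l) 0 1 (by rw [hai]; omega)
    rw [hX, mul_pow, pow_zero, pow_zero, mul_one, mul_one, pow_one, pow_one] at h2
    have h4 : (algebraMap ℂ B (v i)) ^ (e - a l) * ((X : B) ^ (e - a l) * y l) =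
        (algebraMap ℂ B (v i)) ^ (e - a l) * algebraMap ℂ B (v l) := by
      rw [← h2]; ring
    have h5 := ((unitV hi).pow _).mul_left_cancel h4
    rw [← h5, ← mul_assoc, ← pow_add, Nat.add_sub_cancel' hl, hXe, one_mul]
  · right
    by_contra hcon
    have h5 := S.X2 (i := l) (fun h => hcon ⟨by omega, h⟩)
    obtain ⟨j', hj'⟩ := exists_ne' (J l)
    have := S.X0 hj'
    omega

theorem closed_ge (S : Sys a d e f J) (hfv : ∀ j, eval v (f j) = 0) {i k : Fin N} (hik : i ≠ k)
    (hi : v i ≠ 0) (h0 : ∀ m, m ≠ i → m ≠ k → v m = 0) {ℓ : ℕ}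
    (h1 : ℓ * a i = d (J i)) (h2 : coeff (Finsupp.single i ℓ) (f (J i)) ≠ 0) : a k ≤ ℓ := by
  obtain ⟨m, hm, hne, hm0⟩ := Pool.Agent.R920.WC.exists_other (f (J i)) v (hfv _)
    (mem_support_iff.2 h2) (by
    intro x hx
    have : x ≠ i := fun h => hi (h ▸ hx)
    rw [Finsupp.single_eq_of_ne this])
  have hw := S.hf (J i) (mem_support_iff.1 hm)
  have hlt := lt_of_ne_single S.ha hw h1 hne
  have h3 := wt2 a hik (fun x hx1 hx2 => hm0 x (h0 x hx1 hx2))
  rw [hw, ← h1] at h3
  have h4 : a i ∣ m k * a k :=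
    (Nat.dvd_add_right (Nat.dvd_mul_left (a i) (m i))).1 (by
      rw [← h3]; exact Nat.dvd_mul_left _ _)
  have h5 : a i ∣ m k := (S.hcop i k hik).dvd_of_dvd_mul_right h4
  have h6 : 0 < m k := by
    by_contra hcon
    have h7 : m k = 0 := by omega
    rw [h7, zero_mul, add_zero] at h3
    have := Nat.eq_of_mul_eq_mul_right (S.ha i) h3
    omega
  have h7 := Nat.le_of_dvd h6 h5
  have h8 : a i * a k ≤ m k * a k := Nat.mul_le_mul_right _ h7
  by_contra hcon
  push Not at hcon
  have h9 : ℓ * a i < a k * a i := Nat.mul_lt_mul_of_pos_right hcon (S.ha i)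
  have h10 : a k * a i = a i * a k := mul_comm _ _
  omega

/-- two nonzero coordinates, with weights for different degrees -/
theorem Rel.inj (S : Sys a d e f J) (H : Rel a e f v y) {i k : Fin N} (hik : i ≠ k)
    (hi : v i ≠ 0) (hk : v k ≠ 0) (hai : 1 < a i) (hak : 1 < a k) (hJ : J i ≠ J k)
    (h0 : ∀ m, m ≠ i → m ≠ k → v m = 0) :
    ∃ T : Bˣ, ∀ l, y l = (T : B) ^ a l * algebraMap ℂ B (v l) := by
  obtain ⟨ℓ, h1, h2⟩ := S.hJ i hai
  obtain ⟨ℓ', h1', h2'⟩ := S.hJ k hak
  have h3 := closed_ge S H.hfv hik hi h0 h1 h2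
  have h3' := closed_ge S H.hfv hik.symm hk (fun m hm hm' => h0 m hm' hm) h1' h2'
  have h4 := S.X1 hai h1
  have h4' := S.X1 hak h1'
  have h5 := S.X0 hJ
  have h6 : (a k - 1) * (a i - 1) ≤ (ℓ - 1) * (a i - 1) := Nat.mul_le_mul_right _ (by omega)
  have h6' : (a i - 1) * (a k - 1) ≤ (ℓ' - 1) * (a k - 1) := Nat.mul_le_mul_right _ (by omega)
  have h7 : (a k - 1) * (a i - 1) = (a i - 1) * (a k - 1) := mul_comm _ _
  have hoth : ∀ m, m ≠ i → m ≠ k → a m + (a i - 1) * (a k - 1) ≤ e := by
    intro m hm hm'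
    have h8 : a m - 1 ≤ XX a d J (J m) := by
      apply S.X2
      intro h10
      rcases two_val (x := J m) hJ with h11 | h11
      · rw [h11, ← h1] at h10
        have := (S.hcop i m hm.symm).eq_one_of_dvd ⟨ℓ, by rw [← h10, mul_comm]⟩
        omega
      · rw [h11, ← h1'] at h10
        have := (S.hcop k m hm'.symm).eq_one_of_dvd ⟨ℓ', by rw [← h10, mul_comm]⟩
        omega
    rcases two_val (x := J m) hJ with h | h <;> rw [h] at h8 <;> omega
  have h8 : 1 * (a i - 1) ≤ (a k - 1) * (a i - 1) := Nat.mul_le_mul_right _ (by omega)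
  have h8' : 1 * (a k - 1) ≤ (a i - 1) * (a k - 1) := Nat.mul_le_mul_right _ (by omega)
  have hyi : IsUnit (y i) := by
    obtain ⟨p, q, hpq⟩ := rep (S.hcop i k hik) (t := e - a i) (by omega)
    refine H.unit hi hk hi p q 0 ?_
    have : p * a i + q * a k = a i * p + a k * q := by ring
    omega
  have hyk : IsUnit (y k) := by
    obtain ⟨p, q, hpq⟩ := rep (S.hcop i k hik) (t := e - a k) (by omega)
    refine H.unit hi hk hk p q 0 ?_
    have : p * a i + q * a k = a i * p + a k * q := by ring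
    omega
  obtain ⟨X, hX⟩ := exists_ratio hi hyi
  obtain ⟨Y, hY⟩ := exists_ratio hk hyk
  have hzero : ∀ m, m ≠ i → m ≠ k → v m = 0 ∧ y m = 0 := fun m hm hm' =>
    ⟨h0 m hm hm', H.zero S hik hyi hyk (h0 m hm hm') (hoth m hm hm')⟩
  by_cases hA : a k + 1 ≤ ℓ ∧ a i + 1 ≤ ℓ'
  · refine H.roomy S hik hi hk ?_ (fun l hl hl' => Or.inl (hoth l hl hl'))
    have h9 : a k * (a i - 1) ≤ (ℓ - 1) * (a i - 1) := Nat.mul_le_mul_right _ (by omega)
    have h9' : a i * (a k - 1) ≤ (ℓ' - 1) * (a k - 1) := Nat.mul_le_mul_right _ (by omega)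
    have h10 : a i * a k + (a i - 1) * (a k - 1) ≤ a k * (a i - 1) + a i * (a k - 1) + 1 := by
      obtain ⟨p, hp⟩ : ∃ p, a i = p + 1 := ⟨a i - 1, by omega⟩
      obtain ⟨q, hq⟩ : ∃ q, a k = q + 1 := ⟨a k - 1, by omega⟩
      rw [hp, hq]
      simp only [Nat.add_sub_cancel]
      nlinarith
    omega
  · refine H.pair S hik hi hk hX hY ?_ (by omega) (fun l hl hl' => Or.inl (hoth l hl hl'))
    have hB : ℓ = a k ∨ ℓ' = a i := by omega
    rcases hB with hB | hB
    · exact H.bin S hik hi hai hak hX hY (by rw [← h1, hB, mul_comm]) (l := i) (p := 1) (q := 1)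
        le_rfl le_rfl (fun m hm hm' => Or.inl (hzero m hm hm'))
    · exact (H.bin S hik.symm hk hak hai hY hX (by rw [← h1', hB, mul_comm]) (l := i) (p := 1)
        (q := 1) le_rfl le_rfl (fun m hm hm' => Or.inl (hzero m hm' hm))).symm

/-- the case `d (J i) = a i * a k` -/
theorem Rel.nr (S : Sys a d e f J) (H : Rel a e f v y) {i k : Fin N} (hik : i ≠ k)
    (hi : v i ≠ 0) (hk : v k ≠ 0) (hai : 1 < a i) (hak : 1 < a k) (hJ : J i = J k)
    (hD : d (J i) = a i * a k) (hT : ∀ l, 1 < a l → J l = J i → l = i ∨ l = k)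
    (hyi : IsUnit (y i)) (hyk : IsUnit (y k)) (hone : ∀ m, v m ≠ 0 → 1 < a m)
    (huniq : ∀ l m, v l ≠ 0 → v m ≠ 0 → l ≠ i → l ≠ k → m ≠ i → m ≠ k → l = m) :
    ∃ T : Bˣ, ∀ l, y l = (T : B) ^ a l * algebraMap ℂ B (v l) := by
  have ho := S.others hik hai hak hJ
  have hX3 := S.X3 hik hai hak hJ
  obtain ⟨j', hj'⟩ := exists_ne' (J i)
  have hX0 := S.X0 hj'
  obtain ⟨X, hX⟩ := exists_ratio hi hyi
  obtain ⟨Y, hY⟩ := exists_ratio hk hyk
  refine H.pair S hik hi hk hX hY ?_ (by have := hX3.1; omega) (fun l hl hl' => by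
    by_cases h : 1 < a l ∧ d (J l) = a l
    · exact Or.inr h
    · exact Or.inl (ho l hl hl' h))
  -- two weights of the other degree, one of them linear
  have hlinm : ∀ l m, m ≠ l → l ≠ i → l ≠ k → m ≠ i → m ≠ k → 1 < a l → 1 < a m →
      d (J m) ≠ a m := by
    intro l m hml hli hlk hmi hmk hal ham h2
    have h3 : J m ≠ J i := fun h => by
      rcases hT m ham h with h | h
      · exact hmi h
      · exact hmk h
    have h3' : J l ≠ J i := fun h => by
      rcases hT l hal h with h | h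
      · exact hli h
      · exact hlk h
    have h4 : J m = J l := by
      rcases two_val (x := J m) h3'.symm with h | h
      · exact absurd h h3
      · exact h
    have h5 := (S.X3 hml ham hal h4).2.1
    rw [h2] at h5
    have h6 := Nat.le_of_dvd (S.ha m) h5
    nlinarith
  -- the semigroup
  have hpos : ∀ l p r : ℕ, p * a i + r * a k = l → Nat.Coprime (a i) l → Nat.Coprime (a k) l →
      1 ≤ p ∧ 1 ≤ r := by
    intro l p r h h1 h2
    constructor
    · by_contra hcon
      have : p = 0 := by omega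
      rw [this, zero_mul, zero_add] at h
      have := h2.eq_one_of_dvd ⟨r, by rw [← h, mul_comm]⟩
      omega
    · by_contra hcon
      have : r = 0 := by omega
      rw [this, zero_mul, add_zero] at h
      have := h1.eq_one_of_dvd ⟨p, by rw [← h, mul_comm]⟩
      omega
  by_cases hl : ∃ l, l ≠ i ∧ l ≠ k ∧ v l ≠ 0
  · obtain ⟨l, hli, hlk, hvl⟩ := hl
    have hal := hone l hvl
    have hJl : J l ≠ J i := fun h => by
      rcases hT l hal h with h | h
      · exact hli h
      · exact hlk h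
    have hoth : ∀ m, m ≠ i → m ≠ k → m ≠ l → v m = 0 ∧ y m = 0 := by
      intro m hmi hmk hml
      have hvm : v m = 0 := by
        by_contra h
        exact hml (huniq m l h hvl hmi hmk hli hlk)
      refine ⟨hvm, H.zero S hik hyi hyk hvm (ho m hmi hmk ?_)⟩
      rintro ⟨h1, h2⟩
      exact hlinm l m hml hli hlk hmi hmk hal h1 h2
    by_cases hc : ∃ p r : ℕ, p * a i + r * a k = a l
    · obtain ⟨p, r, hpr⟩ := hc
      obtain ⟨hp, hr⟩ := hpos _ p r hpr (S.hcop i l hli.symm) (S.hcop k l hlk.symm)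
      exact H.bin S hik hi hai hak hX hY hD (l := l) hp hr (fun m hmi hmk => by
        by_cases hml : m = l
        · right; exact ⟨hml, hpr.symm⟩
        · left; exact hoth m hmi hmk hml)
    · push Not at hc
      have hlin : ¬ (1 < a l ∧ d (J l) = a l) := by
        rintro ⟨-, h2⟩
        obtain ⟨ℓ, h3, h4⟩ := S.hJ l hal
        have h5 : ℓ = 1 := by
          have : ℓ * a l = 1 * a l := by rw [h3, h2, one_mul]
          exact Nat.eq_of_mul_eq_mul_right (S.ha l) this
        subst h5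
        obtain ⟨m, hm, hne, hm0⟩ := Pool.Agent.R920.WC.exists_other (f (J l)) v (H.hfv _)
          (mem_support_iff.2 h4) (by
          intro x hx
          have : x ≠ l := fun h => hvl (h ▸ hx)
          rw [Finsupp.single_eq_of_ne this])
        have hw := S.hf (J l) (mem_support_iff.1 hm)
        have hlt := lt_of_ne_single S.ha hw h3 hne
        have h6 := wt2 a hik (m := m) (fun x hx1 hx2 => by
          by_cases hxl : x = l
          · subst hxl; omega
          · exact hm0 x (hoth x hx1 hx2 hxl).1)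
        exact hc _ _ (h6.symm.trans (hw.trans h2))
      have hce := ho l hli hlk hlin
      have hyl : IsUnit (y l) := by
        obtain ⟨p, q, hpq⟩ := rep (S.hcop i k hik) (t := e - a l) (by omega)
        refine H.unit hi hk hvl p q 0 ?_
        have : p * a i + q * a k = a i * p + a k * q := by ring
        omega
      obtain ⟨Z, hZ⟩ := exists_ratio hvl hyl
      exact H.gap' S hik hli.symm hlk.symm hi hk hvl hai hak hal hX hY hZ hc hX3.1 hJl.symm hce
        hoth
  · push Not at hl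
    have hz : ∀ m, m ≠ i → m ≠ k → ¬ (1 < a m ∧ d (J m) = a m) → v m = 0 ∧ y m = 0 :=
      fun m h1 h2 h3 => ⟨hl m h1 h2, H.zero S hik hyi hyk (hl m h1 h2) (ho m h1 h2 h3)⟩
    by_cases hL : ∃ l, l ≠ i ∧ l ≠ k ∧ 1 < a l ∧ d (J l) = a l
    · obtain ⟨l, hli, hlk, hal, hdl⟩ := hL
      have hoth : ∀ m, m ≠ i → m ≠ k → m ≠ l → v m = 0 ∧ y m = 0 := by
        intro m hmi hmk hml
        refine hz m hmi hmk ?_
        rintro ⟨h1, h2⟩
        exact hlinm l m hml hli hlk hmi hmk hal h1 h2
      by_cases hc : ∃ p r : ℕ, p * a i + r * a k = a l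
      · obtain ⟨p, r, hpr⟩ := hc
        obtain ⟨hp, hr⟩ := hpos _ p r hpr (S.hcop i l hli.symm) (S.hcop k l hlk.symm)
        exact H.bin S hik hi hai hak hX hY hD (l := l) hp hr (fun m hmi hmk => by
          by_cases hml : m = l
          · right; exact ⟨hml, hpr.symm⟩
          · left; exact hoth m hmi hmk hml)
      · push Not at hc
        have hyl : y l = 0 := by
          obtain ⟨ℓ, h3, h4⟩ := S.hJ l hal
          have h5 : ℓ = 1 := by
            have : ℓ * a l = 1 * a l := by rw [h3, hdl, one_mul]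
            exact Nat.eq_of_mul_eq_mul_right (S.ha l) this
          subst h5
          have h6 := comp (f (J l)) v y (H.hfv _) (H.hfy _) _ h4 0 (by
            intro m hm hne
            have hw := S.hf (J l) (mem_support_iff.1 hm)
            have hlt := lt_of_ne_single S.ha hw h3 hne
            rw [zero_mul]
            by_contra hcon
            have hm0 : ∀ x, x ≠ i → x ≠ k → m x = 0 := by
              intro x hx1 hx2
              by_cases hxl : x = l
              · subst hxl; omega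
              · by_contra h7
                apply hcon
                exact Finset.prod_eq_zero (Finset.mem_univ x) (by
                  rw [(hoth x hx1 hx2 hxl).2, zero_pow h7])
            have h6 := wt2 a hik hm0
            exact hc _ _ (h6.symm.trans (hw.trans hdl)))
          rw [prod_single, pow_one, zero_mul] at h6
          exact h6
        exact H.bin S hik hi hai hak hX hY hD (l := i) (p := 1) (q := 1) le_rfl le_rfl
          (fun m hmi hmk => Or.inl (by
            by_cases hml : m = l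
            · rw [hml]; exact ⟨hl l hli hlk, hyl⟩
            · exact hoth m hmi hmk hml))
    · push Not at hL
      exact H.bin S hik hi hai hak hX hY hD (l := i) (p := 1) (q := 1) le_rfl le_rfl
        (fun m hmi hmk => Or.inl (hz m hmi hmk (fun h => hL m hmi hmk h.1 h.2)))

/-- four weights -/
theorem Rel.quad (S : Sys a d e f J) (H : Rel a e f v y) {i k l m : Fin N} (hik : i ≠ k)
    (hlm : l ≠ m) (hi : v i ≠ 0) (hl : v l ≠ 0) (hai : 1 < a i) (hak : 1 < a k) (hal : 1 < a l)
    (ham : 1 < a m) (hJ : J i = J k) (hJ' : J l = J m) (hne : J i ≠ J l)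
    (hT : ∀ x, 1 < a x → J x = J i → x = i ∨ x = k)
    (hT' : ∀ x, 1 < a x → J x = J l → x = l ∨ x = m) (hlt : a i < a k) (hlt' : a l < a m) :
    ∃ T : Bˣ, ∀ l, y l = (T : B) ^ a l * algebraMap ℂ B (v l) := by
  have h1 := (S.X3 hik hai hak hJ).1
  have h2 := (S.X3 hlm hal ham hJ').1
  have h3 := S.X0 hne
  obtain ⟨h4, h5, h6⟩ := quad_num hai hal hlt hlt'
  have hil : i ≠ l := fun h => hne (by rw [h])
  refine H.roomy S hil hi hl (by omega) (fun x hxi hxl => Or.inl ?_)
  by_cases hx : 1 < a x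
  · rcases two_val (x := J x) hne with h | h
    · rcases hT x hx h with h | h
      · exact absurd h hxi
      · subst h; omega
    · rcases hT' x hx h with h | h
      · exact absurd h hxl
      · subst h; omega
  · omega

/-- the main theorem, up to the case in which two coordinates are not units -/
theorem Rel.main (S : Sys a d e f J) (H : Rel a e f v y) (hv : v ≠ 0) :
    (∃ T : Bˣ, ∀ l, y l = (T : B) ^ a l * algebraMap ℂ B (v l)) ∨
    ∃ i k, i ≠ k ∧ v i ≠ 0 ∧ v k ≠ 0 ∧ 1 < a i ∧ 1 < a k ∧ J i = J k ∧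
      d (J i) = a i * a k ∧ (∀ l, 1 < a l → J l = J i → l = i ∨ l = k) ∧
      ¬ (IsUnit (y i) ∧ IsUnit (y k)) := by
  by_cases h1 : ∃ i, v i ≠ 0 ∧ a i = 1
  · obtain ⟨i, hi, hai⟩ := h1
    exact Or.inl (H.one S hi hai)
  push Not at h1
  have hone : ∀ m, v m ≠ 0 → 1 < a m := fun m hm => by
    have := h1 m hm
    have := S.ha m
    omega
  by_cases h2 : ∃ i k, i ≠ k ∧ v i ≠ 0 ∧ v k ≠ 0 ∧ J i = J k
  · have key : ∀ i k, i ≠ k → v i ≠ 0 → v k ≠ 0 → J i = J k →
        2 * (a i * a k) ≤ XX a d J (J i) + a i + a k →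
        ∃ T : Bˣ, ∀ l, y l = (T : B) ^ a l * algebraMap ℂ B (v l) := by
      intro i k hik hi hk hJ hr
      obtain ⟨j', hj'⟩ := exists_ne' (J i)
      have h3 := S.X0 hj'
      have hai := hone i hi
      have hak := hone k hk
      refine H.roomy S hik hi hk ?_ (fun l hl hl' => by
        by_cases h : 1 < a l ∧ d (J l) = a l
        · exact Or.inr h
        · exact Or.inl (S.others hik hai hak hJ l hl hl' h))
      have h4 : (a i - 1) * (a k - 1) + a i + a k = a i * a k + 1 := by
        obtain ⟨p, hp⟩ : ∃ p, a i = p + 1 := ⟨a i - 1, by omega⟩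
        obtain ⟨q, hq⟩ : ∃ q, a k = q + 1 := ⟨a k - 1, by omega⟩
        rw [hp, hq]
        simp only [Nat.add_sub_cancel]
        ring
      omega
    obtain ⟨i, k, hik, hi, hk, hJ⟩ := h2
    have hai := hone i hi
    have hak := hone k hk
    rcases (S.X3 hik hai hak hJ).2.2.2 with hr | ⟨hD, hT⟩
    · exact Or.inl (key i k hik hi hk hJ hr)
    by_cases hU : IsUnit (y i) ∧ IsUnit (y k)
    swap
    · exact Or.inr ⟨i, k, hik, hi, hk, hai, hak, hJ, hD, hT, hU⟩
    left
    by_cases h3 : ∃ l m, l ≠ m ∧ v l ≠ 0 ∧ v m ≠ 0 ∧ J l ≠ J i ∧ J m ≠ J i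
    · obtain ⟨l, m, hlm, hl, hm, hJl, hJm⟩ := h3
      have hal := hone l hl
      have ham := hone m hm
      have hJlm : J l = J m := by
        rcases two_val (x := J l) hJm with h | h
        · exact h
        · exact absurd h hJl
      rcases (S.X3 hlm hal ham hJlm).2.2.2 with hr | ⟨hD', hT'⟩
      · exact key l m hlm hl hm hJlm hr
      have hne1 : a i ≠ a k := fun h => by
        have := (S.hcop i k hik).eq_one_of_dvd ⟨1, by rw [h, mul_one]⟩
        omega
      have hne2 : a l ≠ a m := fun h => by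
        have := (S.hcop l m hlm).eq_one_of_dvd ⟨1, by rw [h, mul_one]⟩
        omega
      have hTs : ∀ x, 1 < a x → J x = J k → x = k ∨ x = i := fun x hx hJx =>
        (hT x hx (hJx.trans hJ.symm)).symm
      have hTs' : ∀ x, 1 < a x → J x = J m → x = m ∨ x = l := fun x hx hJx =>
        (hT' x hx (hJx.trans hJlm.symm)).symm
      rcases Nat.lt_or_gt_of_ne hne1 with h4 | h4 <;> rcases Nat.lt_or_gt_of_ne hne2 with h5 | h5
      · exact H.quad S hik hlm hi hl hai hak hal ham hJ hJlm (Ne.symm hJl) hT hT' h4 h5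
      · exact H.quad S hik hlm.symm hi hm hai hak ham hal hJ hJlm.symm (Ne.symm hJm) hT hTs' h4 h5
      · exact H.quad S hik.symm hlm hk hl hak hai hal ham hJ.symm hJlm
          (fun h => hJl (h.symm.trans hJ.symm)) hTs hT' h4 h5
      · exact H.quad S hik.symm hlm.symm hk hm hak hai ham hal hJ.symm hJlm.symm
          (fun h => hJm (h.symm.trans hJ.symm)) hTs hTs' h4 h5
    · push Not at h3
      refine H.nr S hik hi hk hai hak hJ hD hT hU.1 hU.2 hone ?_
      intro l m hl hm hli hlk hmi hmk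
      by_contra hlm
      have h4 := h3 l m hlm hl hm (fun h => by
        rcases hT l (hone l hl) h with h | h
        · exact hli h
        · exact hlk h)
      rcases hT m (hone m hm) h4 with h | h
      · exact hmi h
      · exact hmk h
  · push Not at h2
    left
    obtain ⟨i, hi⟩ : ∃ i, v i ≠ 0 := by
      by_contra hcon
      push Not at hcon
      exact hv (funext hcon)
    obtain ⟨ℓ, h3, h4⟩ := S.hJ i (hone i hi)
    obtain ⟨m, hm, hne, hm0⟩ := Pool.Agent.R920.WC.exists_other (f (J i)) v (H.hfv _)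
      (mem_support_iff.2 h4) (by
      intro x hx
      have : x ≠ i := fun h => hi (h ▸ hx)
      rw [Finsupp.single_eq_of_ne this])
    have hw := S.hf (J i) (mem_support_iff.1 hm)
    have hlt := lt_of_ne_single S.ha hw h3 hne
    obtain ⟨k, hki, hmk⟩ : ∃ k, k ≠ i ∧ m k ≠ 0 := by
      by_contra hcon
      push Not at hcon
      rw [Pool.Agent.R920.WC.weight_eq, Finset.sum_eq_single_of_mem i (Finset.mem_univ _)
        (fun k _ hk => by rw [hcon k hk, zero_mul]), ← h3] at hw
      have := Nat.eq_of_mul_eq_mul_right (S.ha i) hw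
      omega
    have hk : v k ≠ 0 := fun h => hmk (hm0 k h)
    have hJ := h2 i k hki.symm hi hk
    refine H.inj S hki.symm hi hk (hone i hi) (hone k hk) hJ ?_
    intro x hxi hxk
    by_contra hx
    rcases two_val (x := J x) hJ with h | h
    · exact h2 x i hxi hx hi h
    · exact h2 x k hxk hx hk h

end Pool.Agent.H61.Fu
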