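import Mathlib

/-! Arithmetic of weighted complete intersections of codimension two, pairwise coprime weights. -/

set_option autoImplicit false

namespace Pool.Agent.H61.Fu

theorem sum_succ_le_prod {ι : Type*} (T : Finset ι) (a : ι → ℕ) (ha : ∀ i ∈ T, 0 < a i) :
    ∑ i ∈ T, (a i - 1) + 1 ≤ ∏ i ∈ T, a i := by
  classical
  induction T using Finset.induction_on with
  | empty => simp
  | insert i s hi ih =>
    rw [Finset.sum_insert hi, Finset.prod_insert hi]
    have h1 := ih (fun j hj => ha j (Finset.mem_insert_of_mem hj))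
    have h2 := ha i (Finset.mem_insert_self i s)
    set S := ∑ i ∈ s, (a i - 1)
    set P := ∏ i ∈ s, a i
    obtain ⟨b, hb⟩ : ∃ b, a i = b + 1 := ⟨a i - 1, by omega⟩
    rw [hb]
    have h3 : 1 ≤ P := by omega
    have h4 : b * 1 ≤ b * P := Nat.mul_le_mul_left b h3
    have h5 : (b + 1) * P = b * P + P := by ring
    omega

theorem prod_dvd' {ι : Type*} (T : Finset ι) (a : ι → ℕ) (d : ℕ)
    (hc : ∀ i ∈ T, ∀ j ∈ T, i ≠ j → Nat.Coprime (a i) (a j)) (hd : ∀ i ∈ T, a i ∣ d) :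
    ∏ i ∈ T, a i ∣ d := by
  classical
  induction T using Finset.induction_on with
  | empty => simp
  | insert i s hi ih =>
    rw [Finset.prod_insert hi]
    apply Nat.Coprime.mul_dvd_of_dvd_of_dvd
    · apply Nat.Coprime.prod_right
      intro j hj
      exact hc i (Finset.mem_insert_self i s) j (Finset.mem_insert_of_mem hj)
        (fun h => hi (h ▸ hj))
    · exact hd i (Finset.mem_insert_self i s)
    · exact ih (fun j hj l hl => hc j (Finset.mem_insert_of_mem hj) l (Finset.mem_insert_of_mem hl))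
        (fun j hj => hd j (Finset.mem_insert_of_mem hj))

/-- one weight -/
theorem one_weight {ι : Type*} [DecidableEq ι] (T : Finset ι) (a : ι → ℕ) (D : ℕ) (hD : 0 < D)
    (ha : ∀ i ∈ T, 0 < a i)
    (hc : ∀ i ∈ T, ∀ j ∈ T, i ≠ j → Nat.Coprime (a i) (a j)) (hd : ∀ i ∈ T, a i ∣ D)
    {i : ι} (hi : i ∈ T) {l : ℕ} (hl : l * a i = D) :
    (l - 1) * (a i - 1) + ∑ k ∈ T, (a k - 1) + 1 ≤ D := by
  have h1 : a i * ∏ k ∈ T.erase i, a k ∣ D := by
    rw [Finset.mul_prod_erase _ _ hi]; exact prod_dvd' T a D hc hd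
  have h2 : ∏ k ∈ T.erase i, a k ∣ l := by
    rw [← hl, mul_comm l] at h1
    exact Nat.dvd_of_mul_dvd_mul_left (ha i hi) h1
  have hlpos : 0 < l := by
    rcases Nat.eq_zero_or_pos l with h | h
    · subst h; rw [zero_mul] at hl; omega
    · exact h
  have h3 := Nat.le_of_dvd hlpos h2
  have h4 := sum_succ_le_prod (T.erase i) a (fun k hk => ha k (Finset.mem_of_mem_erase hk))
  rw [← Finset.add_sum_erase _ _ hi]
  obtain ⟨x, hx⟩ : ∃ x, l = x + 1 := ⟨l - 1, by omega⟩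
  have hai := ha i hi
  obtain ⟨b, hb⟩ : ∃ b, a i = b + 1 := ⟨a i - 1, by omega⟩
  rw [← hl, hb, hx]
  rw [hx] at h3
  simp only [Nat.add_sub_cancel]
  have h5 : (x + 1) * (b + 1) = x * b + x + b + 1 := by ring
  omega

/-- two weights -/
theorem two_weights {ι : Type*} [DecidableEq ι] (T : Finset ι) (a : ι → ℕ) (D : ℕ) (hD : 0 < D)
    (ha : ∀ i ∈ T, 0 < a i)
    (hc : ∀ i ∈ T, ∀ j ∈ T, i ≠ j → Nat.Coprime (a i) (a j)) (hd : ∀ i ∈ T, a i ∣ D)
    {i k : ι} (hi : i ∈ T) (hk : k ∈ T) (hik : i ≠ k) :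
    ∃ w : ℕ, 1 ≤ w ∧ D = a i * a k * w ∧ ∑ l ∈ T, (a l - 1) + 3 ≤ a i + a k + w ∧
      ∀ l ∈ T, l ≠ i → l ≠ k → a l ∣ w := by
  have hk' : k ∈ T.erase i := Finset.mem_erase.2 ⟨hik.symm, hk⟩
  have h1 : a i * (a k * ∏ l ∈ (T.erase i).erase k, a l) ∣ D := by
    rw [Finset.mul_prod_erase _ _ hk', Finset.mul_prod_erase _ _ hi]; exact prod_dvd' T a D hc hd
  have hai := ha i hi
  have hak := ha k hk
  obtain ⟨u, hu⟩ := h1
  refine ⟨(∏ l ∈ (T.erase i).erase k, a l) * u, ?_, ?_, ?_, ?_⟩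
  · by_contra hcon
    have : (∏ l ∈ (T.erase i).erase k, a l) * u = 0 := by omega
    have h2 : D = a i * a k * ((∏ l ∈ (T.erase i).erase k, a l) * u) := by rw [hu]; ring
    rw [this, mul_zero] at h2
    omega
  · rw [hu]; ring
  · have h4 := sum_succ_le_prod ((T.erase i).erase k) a
      (fun l hl => ha l (Finset.mem_of_mem_erase (Finset.mem_of_mem_erase hl)))
    have hupos : 0 < u := by
      rcases Nat.eq_zero_or_pos u with h | h
      · subst h; rw [mul_zero] at hu; omega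
      · exact h
    have h5 : ∏ l ∈ (T.erase i).erase k, a l ≤ (∏ l ∈ (T.erase i).erase k, a l) * u :=
      Nat.le_mul_of_pos_right _ hupos
    rw [← Finset.add_sum_erase _ _ hi, ← Finset.add_sum_erase _ _ hk']
    omega
  · intro l hl hli hlk
    refine Dvd.dvd.mul_right (Finset.dvd_prod_of_mem a ?_) u
    exact Finset.mem_erase.2 ⟨hlk, Finset.mem_erase.2 ⟨hli, hl⟩⟩

/-- `a b` is not a combination with positive coefficients -/
theorem ne_pos_comb {p q : ℕ} (hp : 2 ≤ p) (hq : 2 ≤ q) (hpq : Nat.Coprime p q) {x y : ℕ}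
    (hx : 1 ≤ x) (hy : 1 ≤ y) : x * p + y * q ≠ p * q := by
  intro h
  have h1 : q ∣ x * p := by
    have h2 : q ∣ x * p + y * q := by rw [h]; exact Nat.dvd_mul_left _ _
    exact (Nat.dvd_add_left (Nat.dvd_mul_left _ _)).mp h2
  have h2 : q ∣ x := hpq.symm.dvd_of_dvd_mul_right h1
  have h3 := Nat.le_of_dvd (by omega) h2
  have h4 : q * p ≤ x * p := Nat.mul_le_mul_right _ h3
  have h5 : 1 * q ≤ y * q := Nat.mul_le_mul_right _ hy
  have h6 : q * p = p * q := mul_comm _ _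
  omega

/-- the numerical contradiction in the case of a gap -/
theorem gap_num {a b c x y r δ η q e : ℤ} (ha : 2 ≤ a) (hb : 2 ≤ b) (hc : 2 ≤ c) (hxb : x ≤ b - 1)
    (hη : 1 ≤ η) (hδ : 1 ≤ δ) (hδx : δ ≤ x) (hcδ : c + b * η = a * δ) (hy : 0 ≤ y)
    (hr : r * δ ≤ x + b) (hr' : x + b < (r + 1) * δ) (hyr : y + r * η ≤ a - 1)
    (he : e = a * x + b * y) (hE : (a - 1) * (b - 1) + 1 + (q - 1) * (c - 1) ≤ e)
    (hq : 2 * b ≤ q * δ) : False := by
  -- r < q
  have hrpos : 1 ≤ r := by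
    by_contra h
    push Not at h
    have : (r + 1) * δ ≤ 1 * δ := by nlinarith
    nlinarith
  have hrq : r + 1 ≤ q := by
    by_contra h
    push Not at h
    have h1 : q * δ ≤ r * δ := by nlinarith
    linarith
  -- upper bound for e
  have h1 : a * x ≤ a * ((r + 1) * δ - b - 1) := by
    apply mul_le_mul_of_nonneg_left _ (by linarith)
    linarith
  have h2 : b * y ≤ b * (a - 1 - r * η) := by
    apply mul_le_mul_of_nonneg_left _ (by linarith)
    linarith
  -- e ≤ (r+1) c + b η - a - b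
  have h3 : e ≤ (r + 1) * c + b * η - a - b := by
    have h4 : a * ((r + 1) * δ - b - 1) = (r + 1) * (a * δ) - a * b - a := by ring
    have h5 : b * (a - 1 - r * η) = a * b - b - r * (b * η) := by ring
    rw [he]
    rw [h4] at h1
    rw [h5] at h2
    rw [← hcδ] at h1
    have h6 : (r + 1) * (c + b * η) = (r + 1) * c + r * (b * η) + b * η := by ring
    rw [h6] at h1
    linarith
  -- b (a - η) = c + a (b - δ)
  have h4 : a * b - b * η = c + a * (b - δ) := by
    have : a * (b - δ) = a * b - a * δ := by ring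
    rw [this]; linarith
  have h5 : (q - 1) * (c - 1) ≤ (r + 1) * c - (c + a * (b - δ)) - 2 := by
    have : (a - 1) * (b - 1) = a * b - a - b + 1 := by ring
    rw [this] at hE
    linarith
  have hbδ : 1 ≤ b - δ := by linarith
  -- q ≥ a (b - δ) + 3
  have h6 : a * (b - δ) + 3 ≤ q := by
    have : (r + 1) * c ≤ q * c := by nlinarith
    nlinarith
  -- q ≤ 2 r - 3
  have h7 : q - 1 ≤ 2 * r - 4 := by
    by_contra hcon
    push Not at hcon
    have h8 : a * (b - δ) ≥ 2 := by nlinarith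
    have h9 : (q - 1) * (c - 1) ≤ r * c - 4 := by linarith
    have h10 : (q - 1) * (c - 1) = (q - 1) * (c - 2) + (q - 1) := by ring
    have h11 : r * (c - 2) ≤ (q - 1) * (c - 2) := by
      apply mul_le_mul_of_nonneg_right _ (by linarith)
      linarith
    have h12 : r * c = r * (c - 2) + 2 * r := by ring
    linarith
  have hra : r ≤ a - 1 := by nlinarith
  have h8 : a * (b - δ) + 6 ≤ 2 * r := by linarith
  have h9 : b - δ = 1 := by
    by_contra hne
    have h10 : 2 ≤ b - δ := by omega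
    nlinarith
  have h10 : r * (b - 1) ≤ 2 * b - 1 := by
    have : δ = b - 1 := by linarith
    rw [this] at hr
    linarith
  have h11 : r ≤ 3 := by
    by_contra hcon
    push Not at hcon
    nlinarith
  rw [h9] at h8
  linarith

/-- the two smallest of four weights -/
theorem four_num {p q r s : ℕ} (hp : 2 ≤ p) (hpq : p < q) (hqr : q < r) (hrs : r < s) :
    (p * q + (p - 1) * (q - 1) ≤ (p - 1) * (q - 1) + (r - 1) * (s - 1) + 1) ∧
    (p * q + (p - 1) * (q - 1) ≤ (p - 1) * (r - 1) + (q - 1) * (s - 1) + 1) ∧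
    (p * q + (p - 1) * (q - 1) ≤ (p - 1) * (s - 1) + (q - 1) * (r - 1) + 1) ∧
    (s + (p - 1) * (q - 1) ≤ (p - 1) * (q - 1) + (r - 1) * (s - 1) + 1) ∧
    (s + (p - 1) * (q - 1) ≤ (p - 1) * (r - 1) + (q - 1) * (s - 1) + 1) ∧
    (s + (p - 1) * (q - 1) ≤ (p - 1) * (s - 1) + (q - 1) * (r - 1) + 1) := by
  obtain ⟨P, rfl⟩ : ∃ P, p = P + 2 := ⟨p - 2, by omega⟩
  obtain ⟨Q, rfl⟩ : ∃ Q, q = P + 3 + Q := ⟨q - P - 3, by omega⟩
  obtain ⟨R, rfl⟩ : ∃ R, r = P + 4 + Q + R := ⟨r - P - 4 - Q, by omega⟩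
  obtain ⟨U, rfl⟩ : ∃ U, s = P + 5 + Q + R + U := ⟨s - P - 5 - Q - R, by omega⟩
  have e1 : P + 2 - 1 = P + 1 := by omega
  have e2 : P + 3 + Q - 1 = P + Q + 2 := by omega
  have e3 : P + 4 + Q + R - 1 = P + Q + R + 3 := by omega
  have e4 : P + 5 + Q + R + U - 1 = P + Q + R + U + 4 := by omega
  rw [e1, e2, e3, e4]
  refine ⟨?_, ?_, ?_, ?_, ?_, ?_⟩ <;> nlinarith [Nat.zero_le (P*Q), Nat.zero_le (P*R), Nat.zero_le (P*U), Nat.zero_le (Q*R), Nat.zero_le (Q*U), Nat.zero_le (R*U), Nat.zero_le (P*P), Nat.zero_le (Q*Q), Nat.zero_le (R*R)]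

end Pool.Agent.H61.Fu
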