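import Pool.Agent.H61.Fu.Num
import Pool.Agent.H39R2.FujMain
import Pool.Agent.R920.WC.Poly

/-! Numerical facts about weighted complete intersections of codimension two. -/

set_option autoImplicit false

namespace Pool.Agent.H61.Fu

open MvPolynomial

variable {N : ℕ}

structure Sys (a : Fin N → ℕ) (d : Fin 2 → ℕ) (e : ℕ)
    (f : Fin 2 → MvPolynomial (Fin N) ℂ) (J : Fin N → Fin 2) : Prop where
  ha : ∀ i, 0 < a i
  hcop : ∀ i k, i ≠ k → Nat.Coprime (a i) (a k)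
  hd : ∀ j, 0 < d j
  hf : ∀ j, IsWeightedHomogeneous a (f j) (d j)
  hJ : ∀ i, 1 < a i → ∃ ℓ : ℕ, ℓ * a i = d (J i) ∧ coeff (Finsupp.single i ℓ) (f (J i)) ≠ 0
  hE : d 0 + d 1 ≤ e + 1 + ∑ i, (a i - 1)

def TT (a : Fin N → ℕ) (J : Fin N → Fin 2) (j : Fin 2) : Finset (Fin N) :=
  Finset.univ.filter fun i => 1 < a i ∧ J i = j

def XX (a : Fin N → ℕ) (d : Fin 2 → ℕ) (J : Fin N → Fin 2) (j : Fin 2) : ℕ :=
  d j - 1 - ∑ i ∈ TT a J j, (a i - 1)

theorem mem_TT {a : Fin N → ℕ} {J : Fin N → Fin 2} {j : Fin 2} {i : Fin N} :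
    i ∈ TT a J j ↔ 1 < a i ∧ J i = j := by simp [TT]

variable {a : Fin N → ℕ} {d : Fin 2 → ℕ} {e : ℕ} {f : Fin 2 → MvPolynomial (Fin N) ℂ}
  {J : Fin N → Fin 2} (S : Sys a d e f J)

include S

theorem Sys.sum_split : ∑ i, (a i - 1) = ∑ i ∈ TT a J 0, (a i - 1) + ∑ i ∈ TT a J 1, (a i - 1) := by
  have h1 : ∑ i, (a i - 1) = ∑ i ∈ Finset.univ.filter (fun i => 1 < a i), (a i - 1) := by
    rw [Finset.sum_filter]
    refine Finset.sum_congr rfl fun i _ => ?_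
    by_cases h : 1 < a i
    · rw [if_pos h]
    · rw [if_neg h]
      have := S.ha i
      omega
  rw [h1, ← Finset.sum_fiberwise (s := Finset.univ.filter (fun i => 1 < a i)) (g := J),
    Fin.sum_univ_two, Finset.filter_filter, Finset.filter_filter]
  rfl

theorem Sys.cT (j : Fin 2) : ∀ i ∈ TT a J j, ∀ k ∈ TT a J j, i ≠ k → Nat.Coprime (a i) (a k) :=
  fun i _ k _ h => S.hcop i k h

theorem Sys.dT (j : Fin 2) : ∀ i ∈ TT a J j, a i ∣ d j := by
  intro i hi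
  obtain ⟨h1, h2⟩ := mem_TT.1 hi
  obtain ⟨ℓ, h3, -⟩ := S.hJ i h1
  rw [← h2, ← h3]
  exact Nat.dvd_mul_left _ _

theorem Sys.le (j : Fin 2) : ∑ i ∈ TT a J j, (a i - 1) + 1 ≤ d j := by
  have h1 := sum_succ_le_prod (TT a J j) a (fun i _ => S.ha i)
  have h2 := Nat.le_of_dvd (S.hd j) (prod_dvd' (TT a J j) a (d j) (S.cT j) (S.dT j))
  omega

theorem Sys.X0 {j j' : Fin 2} (h : j ≠ j') : XX a d J j + XX a d J j' + 1 ≤ e := by
  have h1 := S.sum_split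
  have h2 := S.hE
  have h3 := S.le 0
  have h4 := S.le 1
  have h5 : XX a d J 0 + XX a d J 1 + 1 ≤ e := by
    unfold XX
    omega
  fin_cases j <;> fin_cases j' <;> simp_all
  omega

theorem Sys.X1 {i : Fin N} (hi : 1 < a i) {ℓ : ℕ} (hℓ : ℓ * a i = d (J i)) :
    (ℓ - 1) * (a i - 1) ≤ XX a d J (J i) := by
  classical
  have h1 := one_weight (TT a J (J i)) a (d (J i)) (S.hd _) (fun i _ => S.ha i) (S.cT _) (S.dT _)
    (mem_TT.2 ⟨hi, rfl⟩) hℓ
  unfold XX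
  omega

theorem Sys.X2 {i : Fin N} (h : d (J i) ≠ a i) : a i - 1 ≤ XX a d J (J i) := by
  by_cases hi : 1 < a i
  · obtain ⟨ℓ, h1, -⟩ := S.hJ i hi
    have h2 := S.X1 hi h1
    have h3 : 2 ≤ ℓ := by
      by_contra hcon
      have h4 := S.hd (J i)
      interval_cases ℓ
      · omega
      · exact h (by omega)
    have h4 : 1 * (a i - 1) ≤ (ℓ - 1) * (a i - 1) := Nat.mul_le_mul_right _ (by omega)
    omega
  · omega

theorem Sys.X3 {i k : Fin N} (hik : i ≠ k) (hi : 1 < a i) (hk : 1 < a k) (hJ : J i = J k) :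
    (a i - 1) * (a k - 1) ≤ XX a d J (J i) ∧ a i * a k ∣ d (J i) ∧
    (∀ l, l ≠ i → l ≠ k → 1 < a l → J l = J i →
      a l + (a i - 1) * (a k - 1) ≤ XX a d J (J i) + 1) ∧
    (2 * (a i * a k) ≤ XX a d J (J i) + a i + a k ∨
      (d (J i) = a i * a k ∧ ∀ l, 1 < a l → J l = J i → l = i ∨ l = k)) := by
  classical
  obtain ⟨w, hw, h1, h2, h3⟩ := two_weights (TT a J (J i)) a (d (J i)) (S.hd _)
    (fun i _ => S.ha i) (S.cT _) (S.dT _) (mem_TT.2 ⟨hi, rfl⟩) (mem_TT.2 ⟨hk, hJ.symm⟩) hik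
  have h4 := S.le (J i)
  have hX : a i * a k * w + 2 ≤ XX a d J (J i) + a i + a k + w := by
    unfold XX
    rw [← h1]
    omega
  obtain ⟨p, hp⟩ : ∃ p, a i = p + 2 := ⟨a i - 2, by omega⟩
  obtain ⟨q, hq⟩ : ∃ q, a k = q + 2 := ⟨a k - 2, by omega⟩
  have h5 : a i * a k = p * q + 2 * p + 2 * q + 4 := by rw [hp, hq]; ring
  have h6 : (a i - 1) * (a k - 1) = p * q + p + q + 1 := by
    rw [hp, hq, show p + 2 - 1 = p + 1 by omega, show q + 2 - 1 = q + 1 by omega]; ring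
  obtain ⟨z, hz⟩ : ∃ z, w = z + 1 := ⟨w - 1, by omega⟩
  have h7 : a i * a k * w = (p * q + 2 * p + 2 * q + 3) * z + z + (p * q + 2 * p + 2 * q + 4) := by
    rw [hz, h5]; ring
  have h8 : p * q + 3 * z ≤ (p * q + 2 * p + 2 * q + 3) * z + p * q := by nlinarith [Nat.zero_le (p*q*z), Nat.zero_le (p*z), Nat.zero_le (q*z)]
  refine ⟨?_, ?_, ?_, ?_⟩
  · rw [h6]; omega
  · rw [h1]; exact Nat.dvd_mul_right _ _
  · intro l hli hlk hl hJl
    have h9 := Nat.le_of_dvd hw (h3 l (mem_TT.2 ⟨hl, hJl⟩) hli hlk)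
    rw [h6]; omega
  · rcases Nat.eq_zero_or_pos z with h9 | h9
    · right
      subst h9
      rw [hz] at h1 h3
      refine ⟨by rw [h1]; ring, ?_⟩
      intro l hl hJl
      by_contra hcon
      push Not at hcon
      have h10 := Nat.le_of_dvd (by omega) (h3 l (mem_TT.2 ⟨hl, hJl⟩) hcon.1 hcon.2)
      omega
    · left
      have h10 : (p * q + 2 * p + 2 * q + 3) * 1 ≤ (p * q + 2 * p + 2 * q + 3) * z :=
        Nat.mul_le_mul_left _ h9
      omega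

/-- the other coordinates, two weights of the same degree -/
theorem Sys.others {i k : Fin N} (hik : i ≠ k) (hi : 1 < a i) (hk : 1 < a k) (hJ : J i = J k)
    (l : Fin N) (hli : l ≠ i) (hlk : l ≠ k) (hlin : ¬ (1 < a l ∧ d (J l) = a l)) :
    a l + (a i - 1) * (a k - 1) ≤ e := by
  obtain ⟨h1, -, h2, -⟩ := S.X3 hik hi hk hJ
  obtain ⟨j', hj'⟩ : ∃ j' : Fin 2, J i ≠ j' := ⟨1 - J i, by
    generalize J i = j
    fin_cases j <;> decide⟩
  have h0 := S.X0 hj'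
  by_cases hl : 1 < a l
  · by_cases hJl : J l = J i
    · have := h2 l hli hlk hl hJl
      omega
    · have hJl' : J l = j' := by
        generalize J l = x at *
        generalize J i = y at *
        fin_cases x <;> fin_cases y <;> fin_cases j' <;> simp_all
      have h3 := S.X2 (i := l) (by
        intro h
        exact hlin ⟨hl, h⟩)
      rw [hJl'] at h3
      omega
  · omega

omit S in
/-- minimal weights -/
theorem quad_num {p q r s : ℕ} (hp : 2 ≤ p) (hr : 2 ≤ r) (hpq : p < q) (hrs : r < s) :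
    p * r + (p - 1) * (r - 1) ≤ (p - 1) * (q - 1) + (r - 1) * (s - 1) + 1 ∧
    q + (p - 1) * (r - 1) ≤ (p - 1) * (q - 1) + (r - 1) * (s - 1) + 1 ∧
    s + (p - 1) * (r - 1) ≤ (p - 1) * (q - 1) + (r - 1) * (s - 1) + 1 := by
  obtain ⟨P, rfl⟩ : ∃ P, p = P + 2 := ⟨p - 2, by omega⟩
  obtain ⟨R, rfl⟩ : ∃ R, r = R + 2 := ⟨r - 2, by omega⟩
  obtain ⟨Q, rfl⟩ : ∃ Q, q = P + 3 + Q := ⟨q - P - 3, by omega⟩
  obtain ⟨U, rfl⟩ : ∃ U, s = R + 3 + U := ⟨s - R - 3, by omega⟩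
  have e1 : P + 2 - 1 = P + 1 := by omega
  have e2 : R + 2 - 1 = R + 1 := by omega
  have e3 : P + 3 + Q - 1 = P + Q + 2 := by omega
  have e4 : R + 3 + U - 1 = R + U + 2 := by omega
  rw [e1, e2, e3, e4]
  have h1 : 2 * (P * R) ≤ P * P + R * R := by
    zify
    nlinarith [sq_nonneg ((P : ℤ) - R)]
  refine ⟨?_, ?_, ?_⟩ <;>
    nlinarith [Nat.zero_le (P * Q), Nat.zero_le (R * U), Nat.zero_le (P * R), Nat.zero_le (P * P),
      Nat.zero_le (R * R)]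

end Pool.Agent.H61.Fu
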